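import Mathlib
import Pool.Agent.H533R2.TG.Defs

set_option autoImplicit false

/-! Task AD (helper403): an almost disjoint family of size continuum. -/

namespace Pool.Agent.H533R2.TG.P

open Set

namespace AD

/-- code of the first `k` values -/
def cd (ξ : ℕ → Bool) (k : ℕ) : ℕ := Encodable.encode ((List.range k).map ξ)

theorem cd_eq {ξ η : ℕ → Bool} {k j : ℕ} (h : cd ξ k = cd η j) :
    k = j ∧ ∀ i, i < k → ξ i = η i := by
  have h1 : (List.range k).map ξ = (List.range j).map η := Encodable.encode_injective h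
  have h2 : k = j := by
    have := congrArg List.length h1
    simpa using this
  subst h2
  refine ⟨rfl, fun i hi => ?_⟩
  have h3 := congrArg (fun l => l[i]?) h1
  simp only [List.getElem?_map, List.getElem?_range hi, Option.map_some, Option.some.injEq] at h3
  exact h3

end AD

theorem ad_family : ∃ X : (ℕ → Bool) → Set ℕ, (∀ ξ, (X ξ).Infinite) ∧
    ∀ ξ η, ξ ≠ η → (X ξ ∩ X η).Finite := by
  refine ⟨fun ξ => Set.range (AD.cd ξ), fun ξ => ?_, fun ξ η h => ?_⟩
  · exact Set.infinite_range_of_injective (fun k j hkj => (AD.cd_eq hkj).1)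
  · obtain ⟨i, hi⟩ := Function.ne_iff.1 h
    apply Set.Finite.subset ((Set.finite_Iic i).image (AD.cd ξ))
    rintro x ⟨⟨k, rfl⟩, ⟨j, hj⟩⟩
    refine ⟨k, ?_, rfl⟩
    rw [Set.mem_Iic]
    by_contra hk
    rw [not_le] at hk
    exact hi ((AD.cd_eq hj.symm).2 i hk)

end Pool.Agent.H533R2.TG.P
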