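import Mathlib
import Pool.Agent.H533R2.TG.Defs

set_option autoImplicit false

/-! Task GLUE2 (helper509): gluing permutations. -/

namespace Pool.Agent.H533R2.TG.P

open Set

open Classical in
/-- GLUE2 -/
theorem glue (A : ℕ → Set ℕ) (c : ℕ → G) (hA : ∀ i j, i ≠ j → Disjoint (A i) (A j))
    (hB : ∀ i j, i ≠ j → Disjoint (c i '' A i) (c j '' A j)) (h1 : (⋃ i, A i)ᶜ.Infinite)
    (h2 : (⋃ i, c i '' A i)ᶜ.Infinite) : ∃ g : G, ∀ i, ∀ a ∈ A i, g a = c i a := by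
  haveI i1 := h1.to_subtype
  haveI i2 := h2.to_subtype
  obtain ⟨d1⟩ := nonempty_denumerable ↥((⋃ i, A i)ᶜ)
  obtain ⟨d2⟩ := nonempty_denumerable ↥((⋃ i, c i '' A i)ᶜ)
  let e : ↥((⋃ i, A i)ᶜ) ≃ ↥((⋃ i, c i '' A i)ᶜ) := (@Denumerable.eqv _ d1).trans (@Denumerable.eqv _ d2).symm
  have hmem : ∀ x, (¬ ∃ i, x ∈ A i) → x ∈ (⋃ i, A i)ᶜ := by
    intro x hx h
    rw [mem_iUnion] at h
    exact hx h
  let f : ℕ → ℕ := fun x => if h : ∃ i, x ∈ A i then c h.choose x else (e ⟨x, hmem x h⟩ : ℕ)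
  have hf : ∀ i, ∀ a ∈ A i, f a = c i a := by
    intro i a ha
    have h : ∃ i, a ∈ A i := ⟨i, ha⟩
    have hch : h.choose = i := by
      by_contra hne
      exact Set.disjoint_left.1 (hA _ _ hne) h.choose_spec ha
    show (if h : ∃ i, a ∈ A i then c h.choose a else (e ⟨a, hmem a h⟩ : ℕ)) = c i a
    rw [dif_pos h, hch]
  have hf' : ∀ a (h : ¬ ∃ i, a ∈ A i), f a = (e ⟨a, hmem a h⟩ : ℕ) := by
    intro a h
    show (if h : ∃ i, a ∈ A i then c h.choose a else (e ⟨a, hmem a h⟩ : ℕ)) = _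
    rw [dif_neg h]
  have hin : ∀ i, ∀ a ∈ A i, f a ∈ ⋃ i, c i '' A i := by
    intro i a ha
    rw [hf i a ha, mem_iUnion]
    exact ⟨i, a, ha, rfl⟩
  have hout : ∀ a, (¬ ∃ i, a ∈ A i) → f a ∉ ⋃ i, c i '' A i := by
    intro a h
    rw [hf' a h]
    exact (e ⟨a, hmem a h⟩).2
  have hbij : Function.Bijective f := by
    constructor
    · intro x y hxy
      by_cases hx : ∃ i, x ∈ A i
      · obtain ⟨i, hi⟩ := hx
        by_cases hy : ∃ i, y ∈ A i
        · obtain ⟨j, hj⟩ := hy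
          rw [hf i x hi, hf j y hj] at hxy
          by_cases hij : i = j
          · subst hij
            exact (c i).injective hxy
          · exact absurd (Set.disjoint_left.1 (hB i j hij) ⟨x, hi, rfl⟩ ⟨y, hj, hxy.symm⟩) id
        · exact absurd (hxy ▸ hin i x hi) (hout y hy)
      · by_cases hy : ∃ i, y ∈ A i
        · obtain ⟨j, hj⟩ := hy
          exact absurd (hxy ▸ hin j y hj) (hout x hx)
        · rw [hf' x hx, hf' y hy] at hxy
          have := e.injective (Subtype.ext hxy)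
          exact congrArg Subtype.val this
    · intro y
      by_cases hy : y ∈ ⋃ i, c i '' A i
      · rw [mem_iUnion] at hy
        obtain ⟨i, a, ha, rfl⟩ := hy
        exact ⟨a, hf i a ha⟩
      · have hx : ¬ ∃ i, (e.symm ⟨y, hy⟩ : ℕ) ∈ A i := by
          intro h
          exact (e.symm ⟨y, hy⟩).2 (mem_iUnion.2 h)
        refine ⟨e.symm ⟨y, hy⟩, ?_⟩
        rw [hf' _ hx]
        have h3 : (⟨(e.symm ⟨y, hy⟩ : ℕ), hmem _ hx⟩ : ↥((⋃ i, A i)ᶜ)) = e.symm ⟨y, hy⟩ :=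
          Subtype.ext rfl
        rw [h3, Equiv.apply_symm_apply]
  exact ⟨Equiv.ofBijective f hbij, fun i a ha => hf i a ha⟩

end Pool.Agent.H533R2.TG.P
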