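import Mathlib
import Pool.Agent.H533R2.TG.Defs
import Pool.Agent.H533R2.TG.P.GLUE2

set_option autoImplicit false

namespace Pool.Agent.H533R2.TG.P

open Set

variable {U : ℕ → Set G}

namespace CSEQ

theorem ais (c : G) (b : ℕ) : c (c⁻¹ b) = b := c.apply_symm_apply b

theorem ias (c : G) (b : ℕ) : c⁻¹ (c b) = b := c.symm_apply_apply b

theorem inf_compl (x : ℕ → G) (hx : ∀ i, x i ≠ 1)
    (dx : ∀ i j, i ≠ j → Disjoint (mv (x i)) (mv (x j))) :
    (⋃ i, mv (x (2 * i)))ᶜ.Infinite := by
  have hne : ∀ i, ∃ a, x i a ≠ a := by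
    intro i
    by_contra hcon
    push Not at hcon
    exact hx i (Equiv.ext hcon)
  choose a ha using hne
  have hinj : Function.Injective (fun i => a (2 * i + 1)) := by
    intro i j hij
    by_contra hne
    have hij' : a (2 * i + 1) = a (2 * j + 1) := hij
    have h1 := dx (2 * i + 1) (2 * j + 1) (by omega)
    rw [Set.disjoint_left] at h1
    have h2 : a (2 * i + 1) ∈ mv (x (2 * i + 1)) := ha _
    have h3 : a (2 * i + 1) ∈ mv (x (2 * j + 1)) := by rw [hij']; exact ha _
    exact h1 h2 h3
  apply (Set.infinite_range_of_injective hinj).mono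
  rintro _ ⟨i, rfl⟩
  intro hmem
  rw [Set.mem_iUnion] at hmem
  obtain ⟨j, hj⟩ := hmem
  have h1 := dx (2 * i + 1) (2 * j) (by omega)
  rw [Set.disjoint_left] at h1
  exact h1 (ha _) hj

theorem image_mv (c x z : G) (h : c * x * c⁻¹ = z) : (c⁻¹ : G) '' mv z = mv x := by
  subst h
  ext a
  constructor
  · rintro ⟨b, hb, rfl⟩
    intro h2
    apply hb
    have h3 : x (c⁻¹ b) = c⁻¹ b := h2
    show c (x (c⁻¹ b)) = b
    rw [h3]
    exact ais c b
  · intro ha
    refine ⟨c a, ?_, ?_⟩
    · intro h2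
      apply ha
      have h3 : c (x (c⁻¹ (c a))) = c a := h2
      rw [ias] at h3
      exact c.injective h3
    · exact ias c a

end CSEQ

open CSEQ in
/-- CSEQ -/
theorem conj_seq (hU : Base U) (n : ℕ) (x z : ℕ → G) (hz : ∀ i, z i ∈ U i) (hx : ∀ i, x i ∉ U n)
    (hc : ∀ i, ∃ c : G, c * x i * c⁻¹ = z i) (dx : ∀ i j, i ≠ j → Disjoint (mv (x i)) (mv (x j)))
    (dz : ∀ i j, i ≠ j → Disjoint (mv (z i)) (mv (z j))) : False := by
  choose c hc using hc
  have hx1 : ∀ i, x i ≠ 1 := by
    intro i h
    apply hx i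
    rw [h]
    exact hU.one n
  have hz1 : ∀ i, z i ≠ 1 := by
    intro i h
    apply hx1 i
    have h1 := hc i
    rw [h] at h1
    have h2 : x i = (c i)⁻¹ * (c i * x i * (c i)⁻¹) * c i := by group
    rw [h2, h1]
    group
  have him : ∀ i, ((c i)⁻¹ : G) '' mv (z i) = mv (x i) := fun i => image_mv _ _ _ (hc i)
  obtain ⟨g, hg⟩ := Pool.Agent.H533R2.TG.P.glue (fun i => mv (z (2 * i))) (fun i => (c (2 * i))⁻¹)
    (fun i j hij => dz _ _ (by omega))
    (fun i j hij => by
      show Disjoint (((c (2 * i))⁻¹ : G) '' mv (z (2 * i))) (((c (2 * j))⁻¹ : G) '' mv (z (2 * j)))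
      rw [him, him]
      exact dx _ _ (by omega))
    (inf_compl z hz1 dz)
    (by
      have : (⋃ i, ((c (2 * i))⁻¹ : G) '' mv (z (2 * i))) = ⋃ i, mv (x (2 * i)) := by
        congr 1
        ext1 i
        exact him _
      rw [this]
      exact inf_compl x hx1 dx)
  obtain ⟨m, hm⟩ := hU.conj n g
  have hanti : ∀ k, U (m + k) ⊆ U m := by
    intro k
    induction k with
    | zero => exact subset_rfl
    | succ k ih => exact (hU.anti (m + k)).trans ih
  have hzm : z (2 * m) ∈ U m := by
    have := hz (2 * m)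
    have h2 : 2 * m = m + m := by omega
    rw [h2] at this ⊢
    exact hanti m this
  have hxm := hm _ hzm
  apply hx (2 * m)
  have heq : g * z (2 * m) * g⁻¹ = x (2 * m) := by
    -- g z = x g
    have h1 : g * z (2 * m) = x (2 * m) * g := by
      ext a
      show g (z (2 * m) a) = x (2 * m) (g a)
      by_cases ha : a ∈ mv (z (2 * m))
      · have hza : z (2 * m) a ∈ mv (z (2 * m)) := by
          intro h2
          exact ha ((z (2 * m)).injective h2)
        have e1 := hg m _ ha
        have e2 := hg m _ hza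
        have e1' : g a = (c (2 * m))⁻¹ a := e1
        have e2' : g (z (2 * m) a) = (c (2 * m))⁻¹ (z (2 * m) a) := e2
        rw [e1', e2', ← hc (2 * m)]
        show (c (2 * m))⁻¹ (c (2 * m) (x (2 * m) ((c (2 * m))⁻¹ a))) = _
        rw [ias]
      · have h2 : z (2 * m) a = a := by
          by_contra h3
          exact ha h3
        rw [h2]
        by_contra h3
        have h4 : g a ∈ mv (x (2 * m)) := fun h5 => h3 h5.symm
        rw [← him] at h4
        obtain ⟨b, hb, hb2⟩ := h4
        have e1' : g b = (c (2 * m))⁻¹ b := hg m _ hb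
        rw [← e1'] at hb2
        have := g.injective hb2
        rw [this] at hb
        exact ha hb
    rw [h1]
    group
  rw [← heq]
  exact hxm

end Pool.Agent.H533R2.TG.P
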