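import Mathlib
import Pool.Agent.H533R2.TG.Defs

set_option autoImplicit false

/-!
Gaughan's theorem: stabilisers of finite sets are open.
-/

namespace Pool.Agent.H533R2.TG.P

open Equiv

variable {U : ℕ → Set G}

theorem GAU_anti (hU : Base U) {m n : ℕ} (h : m ≤ n) : U n ⊆ U m :=
  antitone_nat_of_succ_le (f := U) (fun n => hU.anti n) h

theorem GAU_y (hU : Base U) (t : G) (k : ℕ) :
    ∃ N, ∀ n, N ≤ n → ∀ g ∈ U n, g * (t * g⁻¹ * t⁻¹) ∈ U k := by
  obtain ⟨m, hm⟩ := hU.conj (k + 1) t
  exact ⟨max m (k + 1), fun n hn g hg =>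
    hU.mul k _ (GAU_anti hU (le_trans (le_max_right _ _) hn) hg) _
      (hm _ (GAU_anti hU (le_trans (le_max_left _ _) hn) (hU.inv n g hg)))⟩

theorem GAU_far (hU : Base U) {a c d : ℕ} (hac : a ≠ c) (had : a ≠ d) (hcd : c ≠ d) :
    ∃ N, ∀ n, N ≤ n → ∀ g ∈ U n, (g a = a ∨ g a = d ∨ g c = a ∨ g c = d) := by
  by_contra hcon
  push Not at hcon
  have key : ∀ k, (swap a c * swap a d * swap a c * swap a d : G) ∈ U k := by
    intro k
    obtain ⟨m, hm⟩ := hU.conj (k + 1) (swap a d)
    obtain ⟨N, hN⟩ := GAU_y hU (swap a c) (max m (k + 1))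
    obtain ⟨n, hn, g, hg, h1, h2, h3, h4⟩ := hcon N
    have hy := hN n hn g hg
    have e2 : g * (swap a c * g⁻¹ * (swap a c)⁻¹) = swap (g a) (g c) * swap a c := by
      rw [Equiv.swap_apply_apply, Equiv.swap_inv]
      group
    rw [e2] at hy
    have e1 : (swap (g a) (g c) * swap a c)⁻¹ *
        (swap a d * (swap (g a) (g c) * swap a c) * (swap a d)⁻¹) ∈ U k :=
      hU.mul k _ (hU.inv _ _ (GAU_anti hU (le_max_right _ _) hy)) _
        (hm _ (GAU_anti hU (le_max_left _ _) hy))
    have e3 : (swap (g a) (g c) * swap a d : G) = swap a d * swap (g a) (g c) := by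
      have hd : Equiv.Perm.Disjoint (swap (g a) (g c)) (swap a d) := by
        intro x
        by_cases hx : x = g a ∨ x = g c
        · right
          apply Equiv.swap_apply_of_ne_of_ne
          · rcases hx with hx | hx <;> rw [hx] <;> assumption
          · rcases hx with hx | hx <;> rw [hx] <;> assumption
        · left
          push Not at hx
          exact Equiv.swap_apply_of_ne_of_ne hx.1 hx.2
      exact hd.commute
    have e4 : (swap (g a) (g c) * swap a c)⁻¹ *
        (swap a d * (swap (g a) (g c) * swap a c) * (swap a d)⁻¹) =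
        (swap a c * swap a d * swap a c * swap a d : G) := by
      rw [mul_inv_rev, Equiv.swap_inv, Equiv.swap_inv, Equiv.swap_inv]
      calc (swap a c * swap (g a) (g c) * (swap a d * (swap (g a) (g c) * swap a c) * swap a d) : G)
          = swap a c * (swap (g a) (g c) * swap a d) * swap (g a) (g c) * swap a c * swap a d := by
            group
        _ = swap a c * swap a d * (swap (g a) (g c) * swap (g a) (g c)) * swap a c * swap a d := by
            rw [e3]; group
        _ = swap a c * swap a d * swap a c * swap a d := by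
            rw [Equiv.swap_mul_self, mul_one]
    rwa [e4] at e1
  have h1 := hU.haus _ key
  have h2 : (swap a c * swap a d * swap a c * swap a d : G) a = a := by rw [h1]; rfl
  simp only [Equiv.Perm.mul_apply, Equiv.swap_apply_left] at h2
  rw [Equiv.swap_apply_of_ne_of_ne had.symm hcd.symm, Equiv.swap_apply_right,
    Equiv.swap_apply_left] at h2
  exact hac h2.symm

theorem GAU_pt (hU : Base U) (a : ℕ) : ∃ n, ∀ g ∈ U n, g a = a := by
  by_contra hcon
  push Not at hcon
  obtain ⟨N1, h1⟩ := GAU_far hU (a := a) (c := a + 1) (d := a + 3) (by omega) (by omega) (by omega)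
  obtain ⟨N2, h2⟩ := GAU_far hU (a := a) (c := a + 1) (d := a + 4) (by omega) (by omega) (by omega)
  obtain ⟨N3, h3⟩ := GAU_far hU (a := a) (c := a + 1) (d := a + 5) (by omega) (by omega) (by omega)
  obtain ⟨N4, h4⟩ := GAU_far hU (a := a) (c := a + 2) (d := a + 3) (by omega) (by omega) (by omega)
  obtain ⟨N5, h5⟩ := GAU_far hU (a := a) (c := a + 2) (d := a + 4) (by omega) (by omega) (by omega)
  obtain ⟨N6, h6⟩ := GAU_far hU (a := a) (c := a + 2) (d := a + 5) (by omega) (by omega) (by omega)
  obtain ⟨g, hg, hga⟩ := hcon (N1 + N2 + N3 + N4 + N5 + N6)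
  have k1 := h1 _ (by omega) g hg
  have k2 := h2 _ (by omega) g hg
  have k3 := h3 _ (by omega) g hg
  have k4 := h4 _ (by omega) g hg
  have k5 := h5 _ (by omega) g hg
  have k6 := h6 _ (by omega) g hg
  have hinj : g (a + 1) ≠ g (a + 2) := fun h => by
    have := g.injective h
    omega
  omega

/-- GAU -/
theorem gaughan (hU : Base U) (F : Finset ℕ) : ∃ n, ∀ g ∈ U n, ∀ x ∈ F, g x = x := by
  choose N hN using GAU_pt hU
  exact ⟨F.sup N, fun g hg x hx => hN x g (GAU_anti hU (Finset.le_sup hx) hg)⟩

end Pool.Agent.H533R2.TG.P
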