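import Mathlib
import Pool.Agent.H533R2.TG.Defs

set_option autoImplicit false

namespace Pool.Agent.H533R2.TG.P

open Set Classical

namespace GLUE3

/-- the glued function -/
noncomputable def F (c : ℕ → G) (x : ℕ) : ℕ :=
  if hx : ∃ i, x ∈ mv (c i) then c hx.choose x else x

theorem F_mem (c : ℕ → G) (h : ∀ i j, i ≠ j → Disjoint (mv (c i)) (mv (c j))) {i x : ℕ}
    (hx : x ∈ mv (c i)) : F c x = c i x := by
  have hex : ∃ i, x ∈ mv (c i) := ⟨i, hx⟩
  unfold F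
  rw [dif_pos hex]
  by_cases hi : hex.choose = i
  · rw [hi]
  · exact absurd hx (Set.disjoint_left.1 (h _ _ hi) hex.choose_spec)

theorem F_not (c : ℕ → G) {x : ℕ} (hx : ∀ i, x ∉ mv (c i)) : F c x = x := by
  unfold F
  rw [dif_neg]
  rintro ⟨i, hi⟩
  exact hx i hi

theorem mv_inv (g : G) : mv g⁻¹ = mv g := by
  ext x
  show g⁻¹ x ≠ x ↔ g x ≠ x
  rw [not_iff_not]
  constructor
  · intro h
    conv_lhs => rw [← h]
    simp
  · intro h
    conv_lhs => rw [← h]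
    simp

theorem mv_app (g : G) {x : ℕ} (hx : x ∈ mv g) : g x ∈ mv g := by
  intro h
  exact hx (g.injective h)

theorem left_inv (c d : ℕ → G) (h : ∀ i j, i ≠ j → Disjoint (mv (c i)) (mv (c j)))
    (hd : ∀ i, d i = (c i)⁻¹) (x : ℕ) : F d (F c x) = x := by
  have hmv : ∀ i, mv (d i) = mv (c i) := fun i => by rw [hd, mv_inv]
  have h' : ∀ i j, i ≠ j → Disjoint (mv (d i)) (mv (d j)) := fun i j hij => by
    rw [hmv, hmv]; exact h i j hij
  by_cases hx : ∃ i, x ∈ mv (c i)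
  · obtain ⟨i, hi⟩ := hx
    rw [F_mem c h hi, F_mem d h' (i := i) (by rw [hmv]; exact mv_app _ hi), hd]
    simp
  · push Not at hx
    rw [F_not c hx, F_not d fun i => by rw [hmv]; exact hx i]

end GLUE3

open GLUE3 in
/-- GLUE3 -/
theorem glue_self (c : ℕ → G) (h : ∀ i j, i ≠ j → Disjoint (mv (c i)) (mv (c j))) :
    ∃ g : G, (∀ i, ∀ a ∈ mv (c i), g a = c i a) ∧ ∀ a, (∀ i, a ∉ mv (c i)) → g a = a := by
  have h' : ∀ i j, i ≠ j → Disjoint (mv ((fun i => (c i)⁻¹) i)) (mv ((fun i => (c i)⁻¹) j)) :=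
    fun i j hij => by
      show Disjoint (mv (c i)⁻¹) (mv (c j)⁻¹)
      rw [mv_inv, mv_inv]
      exact h i j hij
  refine ⟨⟨F c, F (fun i => (c i)⁻¹), left_inv c _ h fun _ => rfl,
    left_inv _ c h' fun i => (inv_inv _).symm⟩, ?_, ?_⟩
  · intro i a ha
    exact F_mem c h ha
  · intro a ha
    exact F_not c ha

end Pool.Agent.H533R2.TG.P
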