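import Mathlib
import Pool.Agent.H533R2.TG.Defs
import Pool.Agent.H533R2.TG.P.GAU
import Pool.Agent.H533R2.TG.P.GLUE3

set_option autoImplicit false

namespace Pool.Agent.H533R2.TG.P

open Set
open Pool.Agent.H533R2.TG

variable {U : ℕ → Set G}

namespace THREE

theorem anti_le (hU : Base U) {i j : ℕ} (hij : i ≤ j) : U j ⊆ U i := by
  induction hij with
  | refl => exact fun _ h => h
  | step _ ih => exact fun x hx => ih (hU.anti _ hx)

/-- one step of the choice -/
theorem step (hU : Base U) (hfin : ∃ m, ∀ g ∈ U m, (mv g).Finite)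
    (hnd : ∀ n, ∃ g ∈ U n, g ≠ 1) (j : ℕ) (E : Finset ℕ) :
    ∃ p : G × ℕ × ℕ, p.1 ∈ U j ∧ (mv p.1).Finite ∧ (∀ x ∈ E, p.1 x = x) ∧ p.2.1 ∈ mv p.1 ∧
      p.2.2 ∉ mv p.1 ∧ p.2.2 ∉ E := by
  obtain ⟨m, hm⟩ := hfin
  obtain ⟨k, hk⟩ := Pool.Agent.H533R2.TG.P.gaughan hU E
  obtain ⟨g, hg, hg1⟩ := hnd (max k (max j m))
  have h1 : g ∈ U k := anti_le hU (le_max_left _ _) hg
  have h2 : g ∈ U j := anti_le hU ((le_max_left _ _).trans (le_max_right _ _)) hg
  have h3 : g ∈ U m := anti_le hU ((le_max_right _ _).trans (le_max_right _ _)) hg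
  have hf := hm g h3
  have ha : ∃ a, g a ≠ a := by
    by_contra hcon
    push Not at hcon
    exact hg1 (Equiv.ext hcon)
  obtain ⟨a, ha⟩ := ha
  obtain ⟨c, hc⟩ := (hf.union E.finite_toSet).exists_notMem
  refine ⟨(g, a, c), h2, hf, hk g h1, ha, fun h => hc (Or.inl h), fun h => hc (Or.inr h)⟩

end THREE

open THREE in
theorem three_small (hU : Base U) (hfin : ∃ m, ∀ g ∈ U m, (mv g).Finite)
    (hnd : ∀ n, ∃ g ∈ U n, g ≠ 1) (n : ℕ) (F : Finset ℕ) :
    ∃ g ∈ U n, T3 g ∧ ∀ x ∈ F, g x = x := by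
  classical
  choose p hp1 hp2 hp3 hp4 hp5 hp6 using step hU hfin hnd
  let Es : ℕ → Finset ℕ := fun j => Nat.rec F (fun j E => E ∪ (hp2 j E).toFinset ∪ {(p j E).2.2}) j
  have Es0 : Es 0 = F := rfl
  have EsS : ∀ j, Es (j + 1) = Es j ∪ (hp2 j (Es j)).toFinset ∪ {(p j (Es j)).2.2} := fun j => rfl
  let h : ℕ → G := fun j => (p j (Es j)).1
  let a : ℕ → ℕ := fun j => (p j (Es j)).2.1
  let c : ℕ → ℕ := fun j => (p j (Es j)).2.2
  have hmem : ∀ j, h j ∈ U j := fun j => hp1 j _
  have hfix : ∀ j, ∀ x ∈ Es j, h j x = x := fun j => hp3 j _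
  have ha : ∀ j, a j ∈ mv (h j) := fun j => hp4 j _
  have hc : ∀ j, c j ∉ mv (h j) := fun j => hp5 j _
  have hcE : ∀ j, c j ∉ Es j := fun j => hp6 j _
  have hmono : ∀ i j, i ≤ j → Es i ⊆ Es j := by
    intro i j hij
    induction hij with
    | refl => exact fun _ h => h
    | step _ ih =>
      intro x hx
      show x ∈ Es (_ + 1)
      rw [EsS]
      exact Finset.mem_union_left _ (Finset.mem_union_left _ (ih hx))
  have hsub : ∀ i j, i < j → ∀ x ∈ mv (h i), x ∈ Es j := by
    intro i j hij x hx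
    refine hmono (i + 1) j hij ?_
    rw [EsS]
    refine Finset.mem_union_left _ (Finset.mem_union_right _ ?_)
    rw [Set.Finite.mem_toFinset]
    exact hx
  have hcsub : ∀ i j, i < j → c i ∈ Es j := by
    intro i j hij
    refine hmono (i + 1) j hij ?_
    rw [EsS]
    exact Finset.mem_union_right _ (Finset.mem_singleton_self _)
  have hnE : ∀ j, ∀ x ∈ mv (h j), x ∉ Es j := fun j x hx hxE => hx (hfix j x hxE)
  have hac : ∀ j, a j ≠ c j := fun j he => hc j (he ▸ ha j)
  -- the swaps
  have hmvs : ∀ j x, x ∈ mv (Equiv.swap (a j) (c j)) → x = a j ∨ x = c j := by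
    intro j x hx
    by_contra hcon
    push Not at hcon
    exact hx (Equiv.swap_apply_of_ne_of_ne hcon.1 hcon.2)
  have hmvs' : ∀ j x, (x = a j ∨ x = c j) → x ∈ mv (Equiv.swap (a j) (c j)) := by
    intro j x hx
    rcases hx with rfl | rfl
    · show Equiv.swap (a j) (c j) (a j) ≠ a j
      rw [Equiv.swap_apply_left]
      exact (hac j).symm
    · show Equiv.swap (a j) (c j) (c j) ≠ c j
      rw [Equiv.swap_apply_right]
      exact hac j
  have hinE : ∀ i j, i < j → ∀ x, (x = a i ∨ x = c i) → x ∈ Es j := by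
    intro i j hij x hx
    rcases hx with rfl | rfl
    · exact hsub i j hij _ (ha i)
    · exact hcsub i j hij
  have hninE : ∀ j x, (x = a j ∨ x = c j) → x ∉ Es j := by
    intro j x hx
    rcases hx with rfl | rfl
    · exact hnE j _ (ha j)
    · exact hcE j
  obtain ⟨g, hg1, hg2⟩ := Pool.Agent.H533R2.TG.P.glue_self (fun j => Equiv.swap (a j) (c j)) (by
    have key : ∀ i j, i < j → Disjoint (mv (Equiv.swap (a i) (c i))) (mv (Equiv.swap (a j) (c j))) := by
      intro i j hij
      rw [Set.disjoint_left]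
      intro x hx hx'
      exact hninE j x (hmvs j x hx') (hinE i j hij x (hmvs i x hx))
    intro i j hij
    rcases lt_or_gt_of_ne hij with h' | h'
    · exact key i j h'
    · exact (key j i h').symm)
  -- g agrees with the swap on the support
  have hagree : ∀ j, ∀ x ∈ mv (h j), g x = Equiv.swap (a j) (c j) x := by
    intro j x hx
    by_cases hxa : x = a j
    · exact hg1 j x (hmvs' j x (Or.inl hxa))
    · have hxc : x ≠ c j := fun he => hc j (he ▸ hx)
      rw [Equiv.swap_apply_of_ne_of_ne hxa hxc]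
      apply hg2
      intro i hxi
      have h1 := hmvs i x hxi
      rcases lt_trichotomy i j with hij | rfl | hij
      · exact hnE j x hx (hinE i j hij x h1)
      · rcases h1 with h1 | h1
        · exact hxa h1
        · exact hxc h1
      · exact hninE i x h1 (hsub j i hij x hx)
  have hconj : ∀ j, g * h j * g⁻¹ = Equiv.swap (a j) (c j) * h j * (Equiv.swap (a j) (c j))⁻¹ := by
    intro j
    rw [mul_inv_eq_iff_eq_mul]
    apply Equiv.ext
    intro x
    by_cases hx : x ∈ mv (h j)
    · have hx' : h j x ∈ mv (h j) := fun he => hx ((h j).injective he)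
      simp only [Equiv.Perm.mul_apply]
      rw [hagree j _ hx', hagree j x hx]
      simp
    · have hx0 : h j x = x := by
        by_contra hcon
        exact hx hcon
      simp only [Equiv.Perm.mul_apply]
      rw [hx0]
      set y := (Equiv.swap (a j) (c j))⁻¹ (g x) with hy
      have hy' : Equiv.swap (a j) (c j) y = g x := by
        rw [hy]; simp
      have hyn : h j y = y := by
        by_contra hcon
        have h2 := hagree j y hcon
        rw [hy'] at h2
        have h3 := g.injective h2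
        exact hcon (h3 ▸ hx0)
      rw [hyn, hy']
  obtain ⟨m', hm'⟩ := hU.conj (n + 1) g
  set j := max m' (n + 1) with hj
  have h1 : g * h j * g⁻¹ ∈ U (n + 1) := hm' _ (anti_le hU (le_max_left _ _) (hmem j))
  have h2 : (h j)⁻¹ ∈ U (n + 1) := hU.inv _ _ (anti_le hU (le_max_right _ _) (hmem j))
  have h3 := hU.mul n _ h2 _ h1
  have hcj : h j (c j) = c j := by
    by_contra hcon
    exact hc j hcon
  have hcj' : (h j)⁻¹ (c j) = c j := by
    rw [Equiv.Perm.inv_eq_iff_eq]
    exact hcj.symm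
  have heq : (h j)⁻¹ * (g * h j * g⁻¹) =
      Equiv.swap (c j) ((h j)⁻¹ (a j)) * Equiv.swap (c j) (a j) := by
    rw [hconj j, Equiv.swap_inv]
    have h4 : (h j)⁻¹ * Equiv.swap (a j) (c j) * h j = Equiv.swap ((h j)⁻¹ (a j)) ((h j)⁻¹ (c j)) := by
      have := Equiv.swap_apply_apply ((h j)⁻¹) (a j) (c j)
      rw [this, inv_inv]
    rw [← mul_assoc, ← mul_assoc, h4, hcj', Equiv.swap_comm ((h j)⁻¹ (a j)) (c j),
      Equiv.swap_comm (a j) (c j)]
  refine ⟨_, h3, ?_, ?_⟩
  · refine ⟨c j, (h j)⁻¹ (a j), a j, ?_, (hac j).symm, ?_, heq⟩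
    · intro he
      have : h j (c j) = a j := by
        rw [he]; simp
      rw [hcj] at this
      exact hac j this.symm
    · intro he
      have : h j (a j) = a j := by
        have h5 : a j = h j (a j) := by
          rw [Equiv.Perm.inv_eq_iff_eq] at he
          exact he
        exact h5.symm
      exact ha j this
  · intro x hx
    have hxE : x ∈ Es j := hmono 0 j (Nat.zero_le _) hx
    have hxc : x ≠ c j := fun he => hcE j (he ▸ hxE)
    have hxa : x ≠ a j := fun he => hnE j _ (ha j) (he ▸ hxE)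
    have hxh : x ≠ (h j)⁻¹ (a j) := by
      intro he
      have h6 : h j x = a j := by rw [he]; simp
      rw [hfix j x hxE] at h6
      exact hxa h6
    rw [heq, Equiv.Perm.mul_apply, Equiv.swap_apply_of_ne_of_ne hxc hxa,
      Equiv.swap_apply_of_ne_of_ne hxc hxh]

end Pool.Agent.H533R2.TG.P
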