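import Mathlib
import Pool.Agent.H533R2.TG.Defs
import Pool.Agent.H533R2.TG.P.CSEQ
import Pool.Agent.H533R2.TG.P.THREE

set_option autoImplicit false

namespace Pool.Agent.H533R2.TG.P

open Set

namespace ALL3

theorem mv_T3 {g : G} (h : T3 g) : ∃ F : Finset ℕ, mv g ⊆ F := by
  obtain ⟨a, b, c, -, -, -, rfl⟩ := h
  refine ⟨{a, b, c}, fun x hx => ?_⟩
  by_contra hc
  simp only [Finset.coe_insert, Finset.coe_singleton, mem_insert_iff, mem_singleton_iff,
    not_or] at hc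
  apply hx
  rw [Equiv.Perm.mul_apply, Equiv.swap_apply_of_ne_of_ne hc.1 hc.2.2,
    Equiv.swap_apply_of_ne_of_ne hc.1 hc.2.1]

theorem conj_T3 {g h : G} (hg : T3 g) (hh : T3 h) : ∃ c : G, c * g * c⁻¹ = h := by
  obtain ⟨a, b, d, hab, had, hbd, rfl⟩ := hg
  obtain ⟨a', b', d', hab', had', hbd', rfl⟩ := hh
  have := Equiv.Perm.isMultiplyPretransitive ℕ 3
  let x : Fin 3 ↪ ℕ := ⟨![a, b, d], by
    intro i j h
    fin_cases i <;> fin_cases j <;> simp_all⟩
  let y : Fin 3 ↪ ℕ := ⟨![a', b', d'], by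
    intro i j h
    fin_cases i <;> fin_cases j <;> simp_all⟩
  obtain ⟨c, hc⟩ := MulAction.exists_smul_eq (Equiv.Perm ℕ) x y
  have h0 : c a = a' := by
    have := congrArg (fun e : Fin 3 ↪ ℕ => e 0) hc
    exact this
  have h1 : c b = b' := by
    have := congrArg (fun e : Fin 3 ↪ ℕ => e 1) hc
    exact this
  have h2 : c d = d' := by
    have := congrArg (fun e : Fin 3 ↪ ℕ => e 2) hc
    exact this
  refine ⟨c, ?_⟩
  rw [← h0, ← h1, ← h2, Equiv.swap_apply_apply, Equiv.swap_apply_apply]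
  group

theorem seq (Q : ℕ → G → Prop)
    (h : ∀ i (F : Finset ℕ), ∃ g, Q i g ∧ T3 g ∧ ∀ x ∈ F, g x = x) :
    ∃ x : ℕ → G, (∀ i, Q i (x i) ∧ T3 (x i)) ∧
      ∀ i j, i ≠ j → Disjoint (mv (x i)) (mv (x j)) := by
  classical
  choose s hs1 hs2 hs3 using h
  choose t ht using fun i F => mv_T3 (hs2 i F)
  let F : ℕ → Finset ℕ := fun i => Nat.rec ∅ (fun i F => F ∪ t i F) i
  have hF : ∀ i, F (i + 1) = F i ∪ t i (F i) := fun i => rfl
  have hmono : Monotone F := monotone_nat_of_le_succ fun i => by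
    rw [hF]
    exact Finset.subset_union_left
  have key : ∀ i j, i < j → Disjoint (mv (s i (F i))) (mv (s j (F j))) := by
    intro i j hij
    rw [Set.disjoint_left]
    intro a ha ha'
    have h1 : a ∈ F (i + 1) := by
      rw [hF]
      exact Finset.mem_union_right _ (ht i (F i) ha)
    exact ha' (hs3 j (F j) a (hmono (Nat.succ_le_of_lt hij) h1))
  refine ⟨fun i => s i (F i), fun i => ⟨hs1 i _, hs2 i _⟩, fun i j hij => ?_⟩
  rcases lt_or_gt_of_ne hij with h | h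
  · exact key i j h
  · exact (key j i h).symm

end ALL3

/-- ALL3 -/
theorem three_all {U : ℕ → Set G} (hU : Base U) (hfin : ∃ m, ∀ g ∈ U m, (mv g).Finite)
    (hnd : ∀ n, ∃ g ∈ U n, g ≠ 1) (n : ℕ) :
    ∃ F : Finset ℕ, ∀ g, T3 g → (∀ x ∈ F, g x = x) → g ∈ U n := by
  by_contra hcon
  push Not at hcon
  obtain ⟨x, hx1, hx2⟩ := ALL3.seq (fun _ g => g ∉ U n) (fun i F => by
    obtain ⟨g, h1, h2, h3⟩ := hcon F
    exact ⟨g, h3, h1, h2⟩)
  obtain ⟨z, hz1, hz2⟩ := ALL3.seq (fun i g => g ∈ U i) (fun i F => by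
    obtain ⟨g, h1, h2, h3⟩ := Pool.Agent.H533R2.TG.P.three_small hU hfin hnd i F
    exact ⟨g, h1, h2, h3⟩)
  exact Pool.Agent.H533R2.TG.P.conj_seq hU n x z (fun i => (hz1 i).1) (fun i => (hx1 i).1)
    (fun i => ALL3.conj_T3 (hx1 i).2 (hz1 i).2) hx2 hz2

end Pool.Agent.H533R2.TG.P
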