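import Mathlib
import Pool.Agent.H533R2.TG.Defs

set_option autoImplicit false

/-! Task THIN. -/

namespace Pool.Agent.H533R2.TG.P

open Set

variable {U : ℕ → Set G}

theorem THIN_inv (f : G) (x : ℕ) : f⁻¹ (f x) = x := f.symm_apply_apply x

/-- recursive choice of a sequence of natural numbers -/
theorem THIN_seq (Q : ℕ → (ℕ → ℕ) → ℕ → Prop)
    (hdep : ∀ s f f' y, (∀ t, t < s → f t = f' t) → Q s f y → Q s f' y)
    (hex : ∀ s f, ∃ y, Q s f y) : ∃ b : ℕ → ℕ, ∀ s, Q s b (b s) := by
  classical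
  let F : (s : ℕ) → ((t : ℕ) → t < s → ℕ) → ℕ := fun s ih =>
    Classical.choose (hex s (fun t => if h : t < s then ih t h else 0))
  let b : ℕ → ℕ := fun s => Nat.strongRec (motive := fun _ => ℕ) F s
  have hb : ∀ s, b s = F s (fun t _ => b t) := by
    intro s
    show Nat.strongRec (motive := fun _ => ℕ) F s = _
    rw [Nat.strongRec_eq]
  refine ⟨b, fun s => ?_⟩
  have h1 : Q s (fun t => if h : t < s then b t else 0) (b s) := by
    rw [hb s]
    exact Classical.choose_spec (hex s (fun t => if h : t < s then b t else 0))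
  refine hdep s _ _ _ (fun t ht => ?_) h1
  simp [ht]

/-- THIN -/
theorem thin (h : ℕ → G) (hh : ∀ m, (mv (h m)).Infinite) :
    ∃ B : ℕ → Set ℕ, (∀ m, (B m).Infinite) ∧ (∀ i j, i ≠ j → Disjoint (B i) (B j)) ∧
      ∀ m j, Disjoint (h m '' B m) (B j) := by
  classical
  obtain ⟨b, hb⟩ := THIN_seq (fun s f y => y ∈ mv (h (Nat.unpair s).1) ∧
      ∀ t < s, y ≠ f t ∧ y ≠ h (Nat.unpair t).1 (f t) ∧ h (Nat.unpair s).1 y ≠ f t)
    (by
      intro s f f' y he ⟨h1, h2⟩
      refine ⟨h1, fun t ht => ?_⟩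
      rw [← he t ht]
      exact h2 t ht)
    (by
      intro s f
      obtain ⟨y, hy, hy'⟩ := (hh (Nat.unpair s).1).exists_notMem_finset
        ((Finset.range s).image f ∪ (Finset.range s).image (fun t => h (Nat.unpair t).1 (f t)) ∪
          (Finset.range s).image (fun t => (h (Nat.unpair s).1)⁻¹ (f t)))
      refine ⟨y, hy, fun t ht => ?_⟩
      simp only [Finset.mem_union, Finset.mem_image, Finset.mem_range, not_or, not_exists,
        not_and] at hy'
      refine ⟨fun e => hy'.1.1 t ht e.symm, fun e => hy'.1.2 t ht e.symm, fun e => ?_⟩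
      refine hy'.2 t ht ?_
      rw [← e, THIN_inv])
  have hinj : Function.Injective b := by
    intro s s' e
    rcases lt_trichotomy s s' with hlt | heq | hgt
    · exact absurd e.symm ((hb s').2 s hlt).1
    · exact heq
    · exact absurd e ((hb s).2 s' hgt).1
  refine ⟨fun m => {x | ∃ s, (Nat.unpair s).1 = m ∧ b s = x}, fun m => ?_, fun i j hij => ?_,
    fun m j => ?_⟩
  · refine Set.infinite_of_injective_forall_mem (f := fun k => b (Nat.pair m k)) ?_ ?_
    · intro k k' e
      have := hinj e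
      rw [Nat.pair_eq_pair] at this
      exact this.2
    · intro k
      exact ⟨Nat.pair m k, by rw [Nat.unpair_pair], rfl⟩
  · rw [Set.disjoint_left]
    rintro x ⟨s, hs, rfl⟩ ⟨s', hs', e⟩
    have := hinj e
    subst this
    exact hij (hs.symm.trans hs')
  · rw [Set.disjoint_left]
    rintro x ⟨y, ⟨s, hs, rfl⟩, rfl⟩ ⟨s', hs', e⟩
    rcases lt_trichotomy s s' with hlt | heq | hgt
    · refine ((hb s').2 s hlt).2.1 ?_
      rw [hs]; exact e
    · subst heq
      have := (hb s).1
      rw [hs] at this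
      exact this e.symm
    · refine ((hb s).2 s' hgt).2.2 ?_
      rw [hs]; exact e.symm

end Pool.Agent.H533R2.TG.P
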