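import Mathlib
import Pool.Agent.H533R2.TG.Defs
import Pool.Agent.H533R2.TG.P.GLUE3
import Pool.Agent.H533R2.TG.P.THIN

set_option autoImplicit false

/-! Task FULL. -/

namespace Pool.Agent.H533R2.TG.P

open Set

variable {U : ℕ → Set G}

theorem FULL_inv (f : G) (x : ℕ) : f⁻¹ (f x) = x := f.symm_apply_apply x

theorem FULL_anti (hU : Base U) {n m : ℕ} (h : n ≤ m) : U m ⊆ U n := by
  induction h with
  | refl => exact subset_rfl
  | step _ ih => exact (hU.anti _).trans ih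

/-- FULL -/
theorem full_exists (hU : Base U) (hinf : ∀ m, ∃ g ∈ U m, (mv g).Infinite) (n : ℕ) :
    ∃ B : Set ℕ, B.Infinite ∧ Full U n B := by
  classical
  choose h hhU hhi using hinf
  obtain ⟨B, hBi, hBd, hBh⟩ := Pool.Agent.H533R2.TG.P.thin h hhi
  by_contra hcon
  push Not at hcon
  have hnf : ∀ m, ∃ σ : G, mv σ ⊆ B m ∧ ∀ k ∈ U n, ∃ b ∈ B m, k b ≠ σ b := by
    intro m
    have := hcon (B m) (hBi m)
    unfold Full at this
    push Not at this
    exact this
  choose σ hσB hσ using hnf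
  have hmvinv : ∀ m, mv ((σ m)⁻¹) = mv (σ m) := by
    intro m
    ext x
    simp only [mv, Set.mem_ofPred_eq, ne_eq, Equiv.Perm.inv_eq_iff_eq]
    exact not_congr eq_comm
  obtain ⟨g, hg1, hg2⟩ := Pool.Agent.H533R2.TG.P.glue_self (fun m => (σ m)⁻¹) (by
    intro i j hij
    rw [hmvinv, hmvinv]
    exact (hBd i j hij).mono (hσB i) (hσB j))
  have hgB : ∀ m, ∀ a ∈ B m, g a = (σ m)⁻¹ a := by
    intro m a ha
    by_cases h1 : a ∈ mv ((σ m)⁻¹)
    · exact hg1 m a h1
    · have h2 : (σ m)⁻¹ a = a := by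
        simpa [mv] using h1
      rw [h2]
      refine hg2 a (fun i hi => ?_)
      rcases eq_or_ne i m with rfl | him
      · exact h1 hi
      · rw [hmvinv] at hi
        exact Set.disjoint_left.1 (hBd i m him) (hσB i hi) ha
  have hgo : ∀ a, (∀ j, a ∉ B j) → g a = a := by
    intro a ha
    refine hg2 a (fun i hi => ?_)
    rw [hmvinv] at hi
    exact ha i (hσB i hi)
  obtain ⟨m0, hm0⟩ := hU.conj (n + 1) g
  set m := max m0 (n + 1) with hm
  have e1 : g * h m * g⁻¹ ∈ U (n + 1) :=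
    hm0 _ (FULL_anti hU (le_max_left _ _) (hhU m))
  have e2 : (h m)⁻¹ ∈ U (n + 1) :=
    hU.inv _ _ (FULL_anti hU (le_max_right _ _) (hhU m))
  have e3 : (h m)⁻¹ * (g * h m * g⁻¹) ∈ U n := hU.mul n _ e2 _ e1
  obtain ⟨b, hb, hne⟩ := hσ m _ e3
  refine hne ?_
  have hc : σ m b ∈ B m := by
    by_cases hbm : b ∈ mv (σ m)
    · refine hσB m ?_
      simp only [mv, Set.mem_ofPred_eq, ne_eq] at hbm ⊢
      intro e
      exact hbm ((σ m).injective e)
    · have : σ m b = b := by simpa [mv] using hbm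
      rw [this]; exact hb
  have hginv : g⁻¹ b = σ m b := by
    rw [Equiv.Perm.inv_eq_iff_eq, hgB m _ hc, FULL_inv]
  have hfix : g (h m (σ m b)) = h m (σ m b) := by
    refine hgo _ (fun j hj => ?_)
    exact Set.disjoint_left.1 (hBh m j) (Set.mem_image_of_mem _ hc) hj
  simp only [Equiv.Perm.mul_apply]
  rw [hginv, hfix, FULL_inv]

end Pool.Agent.H533R2.TG.P
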