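import Mathlib
import Pool.Agent.H533R2.TG.Defs

set_option autoImplicit false

/-! Task GLUE1. -/

namespace Pool.Agent.H533R2.TG.P

open Set Pool.Agent.H533R2.TG

/-- GLUE1 -/
theorem exists_perm_image (A B : Set ℕ) (hA : A.Infinite) (hB : B.Infinite) (hA' : Aᶜ.Infinite)
    (hB' : Bᶜ.Infinite) : ∃ c : G, c '' A = B := by
  classical
  have iA : Infinite A := hA.to_subtype
  have iB : Infinite B := hB.to_subtype
  have iA' : Infinite (Aᶜ : Set ℕ) := hA'.to_subtype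
  have iB' : Infinite (Bᶜ : Set ℕ) := hB'.to_subtype
  obtain ⟨dA⟩ := nonempty_denumerable A
  obtain ⟨dB⟩ := nonempty_denumerable B
  obtain ⟨dA'⟩ := nonempty_denumerable (Aᶜ : Set ℕ)
  obtain ⟨dB'⟩ := nonempty_denumerable (Bᶜ : Set ℕ)
  let e : A ≃ B := (Denumerable.eqv A).trans (Denumerable.eqv B).symm
  let e' : (Aᶜ : Set ℕ) ≃ (Bᶜ : Set ℕ) :=
    (Denumerable.eqv (Aᶜ : Set ℕ)).trans (Denumerable.eqv (Bᶜ : Set ℕ)).symm
  let c : G := (Equiv.Set.sumCompl A).symm.trans ((e.sumCongr e').trans (Equiv.Set.sumCompl B))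
  have h1 : ∀ x : A, c x.1 = (e x).1 := by
    intro x
    simp only [c, Equiv.trans_apply]
    rw [Equiv.Set.sumCompl_symm_apply_of_mem x.2]
    simp
  refine ⟨c, ?_⟩
  ext y
  constructor
  · rintro ⟨x, hx, rfl⟩
    rw [h1 ⟨x, hx⟩]
    exact (e ⟨x, hx⟩).2
  · intro hy
    refine ⟨(e.symm ⟨y, hy⟩).1, (e.symm ⟨y, hy⟩).2, ?_⟩
    rw [h1, Equiv.apply_symm_apply]

end Pool.Agent.H533R2.TG.P
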