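import Mathlib
import Pool.Agent.H533R2.TG.Defs

set_option autoImplicit false

namespace Pool.Agent.H533R2.TG.P

open Pool.Agent.H533R2.TG

theorem disj_sub (B : ℕ → Set ℕ) (hB : ∀ i, (B i).Infinite) :
    ∃ B' : ℕ → Set ℕ, (∀ i, B' i ⊆ B i ∧ (B' i).Infinite) ∧
      (∀ i j, i ≠ j → Disjoint (B' i) (B' j)) ∧ (⋃ i, B' i)ᶜ.Infinite := by
  have h1 : ∀ i N : ℕ, ∃ b ∈ B i, N < b := fun i N => (hB i).exists_gt N
  choose f hf hfN using h1
  let p : ℕ → ℕ := fun s => Nat.rec (f (Nat.unpair 0).1 0)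
    (fun s r => f (Nat.unpair (s + 1)).1 (r + 1)) s
  have hp0 : p 0 = f (Nat.unpair 0).1 0 := rfl
  have hps : ∀ s, p (s + 1) = f (Nat.unpair (s + 1)).1 (p s + 1) := fun s => rfl
  have hmem : ∀ s, p s ∈ B (Nat.unpair s).1 := by
    intro s
    cases s with
    | zero => rw [hp0]; exact hf _ _
    | succ s => rw [hps]; exact hf _ _
  have hlt : ∀ s, p s + 1 < p (s + 1) := by
    intro s
    rw [hps]
    exact hfN _ _
  have hmono : StrictMono p := strictMono_nat_of_lt_succ fun s => by
    have := hlt s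
    omega
  refine ⟨fun i => {x | ∃ s, (Nat.unpair s).1 = i ∧ p s = x}, fun i => ⟨?_, ?_⟩, ?_, ?_⟩
  · rintro x ⟨s, hs, rfl⟩
    rw [← hs]
    exact hmem s
  · have hinj : Function.Injective (fun k : ℕ => p (Nat.pair i k)) := by
      intro a b hab
      have h2 := hmono.injective hab
      have h3 := congrArg Nat.unpair h2
      rw [Nat.unpair_pair, Nat.unpair_pair] at h3
      exact (Prod.mk.inj h3).2
    refine (Set.infinite_range_of_injective hinj).mono ?_
    rintro x ⟨k, rfl⟩
    exact ⟨Nat.pair i k, by rw [Nat.unpair_pair], rfl⟩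
  · intro i j hij
    rw [Set.disjoint_left]
    rintro x ⟨s, hs, hx⟩ ⟨t, ht, hx'⟩
    have : s = t := hmono.injective (hx.trans hx'.symm)
    subst this
    exact hij (hs.symm.trans ht)
  · have hinj : Function.Injective (fun s : ℕ => p s + 1) := by
      intro a b hab
      exact hmono.injective (Nat.succ.inj hab)
    refine (Set.infinite_range_of_injective hinj).mono ?_
    rintro x ⟨s, rfl⟩
    simp only [Set.mem_compl_iff, Set.mem_iUnion, Set.mem_setOf_eq, not_exists, not_and]
    intro i t _ ht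
    have h1 : s < t := hmono.lt_iff_lt.mp (by omega)
    have h2 : p (s + 1) ≤ p t := hmono.monotone h1
    have h3 := hlt s
    omega

end Pool.Agent.H533R2.TG.P
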