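import Mathlib
import Pool.Agent.H533R2.TG.Defs
import Pool.Agent.H533R2.TG.P.GLUE1
import Pool.Agent.H533R2.TG.P.GLUE2
import Pool.Agent.H533R2.TG.P.SPLIT

set_option autoImplicit false

/-! TRANS (helper332) -/

namespace Pool.Agent.H533R2.TG.P

open Set

variable {U : ℕ → Set G}

theorem transfer (hU : Base U) (P : ℕ → Set ℕ → Prop)
    (hmono : ∀ n B B', B' ⊆ B → P n B → P n B')
    (hconj : ∀ (n m : ℕ) (g : G), (∀ h ∈ U m, g * h * g⁻¹ ∈ U n) → ∀ B, P m B → P n (g '' B))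
    (hex : ∀ n, ∃ B : Set ℕ, B.Infinite ∧ P n B) (n : ℕ) (D : Set ℕ) (hD : D.Infinite) :
    ∃ B ⊆ D, B.Infinite ∧ P n B := by
  choose B hBi hBP using hex
  obtain ⟨B', hB'1, hB'2, hB'3⟩ := Pool.Agent.H533R2.TG.P.disj_sub B hBi
  obtain ⟨D', hD'1, hD'2, hD'3⟩ := Pool.Agent.H533R2.TG.P.disj_sub (fun _ => D) (fun _ => hD)
  have hcB : ∀ i, (B' i)ᶜ.Infinite := fun i =>
    hB'3.mono (compl_subset_compl.2 (subset_iUnion B' i))
  have hcD : ∀ i, (D' i)ᶜ.Infinite := fun i =>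
    hD'3.mono (compl_subset_compl.2 (subset_iUnion D' i))
  have hc : ∀ i, ∃ c : G, c '' B' i = D' i := fun i =>
    Pool.Agent.H533R2.TG.P.exists_perm_image (B' i) (D' i) (hB'1 i).2 (hD'1 i).2 (hcB i) (hcD i)
  choose c hc using hc
  obtain ⟨g, hg⟩ := Pool.Agent.H533R2.TG.P.glue B' c hB'2 (by
    intro i j hij
    rw [hc i, hc j]
    exact hD'2 i j hij) hB'3 (by
    have : (⋃ i, c i '' B' i) = ⋃ i, D' i := iUnion_congr hc
    rw [this]
    exact hD'3)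
  have hgD : ∀ i, g '' B' i = D' i := by
    intro i
    rw [← hc i]
    exact image_congr (hg i)
  obtain ⟨m, hm⟩ := hU.conj n g
  refine ⟨D' m, (hD'1 m).1, (hD'1 m).2, ?_⟩
  rw [← hgD m]
  exact hconj n m g hm _ (hmono m _ _ (hB'1 m).1 (hBP m))

end Pool.Agent.H533R2.TG.P
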