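import Mathlib
import Pool.Agent.H533R2.TG.Defs
import Pool.Agent.H533R2.TG.P.FULL
import Pool.Agent.H533R2.TG.P.TRANS

set_option autoImplicit false

namespace Pool.Agent.H533R2.TG.P

open Set

variable {U : ℕ → Set G}

theorem ALMOST_mono (n : ℕ) (B B' : Set ℕ) (h : B' ⊆ B) (hB : Full U n B) : Full U n B' := by
  intro σ hσ
  obtain ⟨k, hk, hb⟩ := hB σ (hσ.trans h)
  exact ⟨k, hk, fun b hb' => hb b (h hb')⟩

theorem ALMOST_conj (n m : ℕ) (g : G) (hg : ∀ h ∈ U m, g * h * g⁻¹ ∈ U n) (B : Set ℕ)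
    (hB : Full U m B) : Full U n (g '' B) := by
  intro σ hσ
  have h1 : mv (g⁻¹ * σ * g) ⊆ B := by
    intro x hx
    have h2 : g x ∈ mv σ := by
      intro h3
      apply hx
      simp only [Equiv.Perm.mul_apply]
      rw [h3]
      simp
    obtain ⟨y, hy, hxy⟩ := hσ h2
    rwa [← g.injective hxy]
  obtain ⟨k, hk, hb⟩ := hB _ h1
  refine ⟨g * k * g⁻¹, hg k hk, ?_⟩
  rintro _ ⟨b, hb', rfl⟩
  have e1 : (g⁻¹ : G) (g b) = b := by simp
  rw [Equiv.Perm.mul_apply, Equiv.Perm.mul_apply, e1, hb b hb']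
  simp [Equiv.Perm.mul_apply]

/-- ALMOST -/
theorem almost (hU : Base U) (hinf : ∀ m, ∃ g ∈ U m, (mv g).Infinite) :
    ∃ c : ℕ → ℕ, Function.Injective c ∧ ∀ n, Full U n (tail c n) := by
  have hstep : ∀ (n : ℕ) (A : Set ℕ), A.Infinite →
      ∃ B ⊆ A, B.Infinite ∧ Full U n B := fun n A hA =>
    Pool.Agent.H533R2.TG.P.transfer hU (fun n B => Full U n B) ALMOST_mono ALMOST_conj
      (fun n => Pool.Agent.H533R2.TG.P.full_exists hU hinf n) n A hA
  obtain ⟨A0, hA0, hF0⟩ := Pool.Agent.H533R2.TG.P.full_exists hU hinf 0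
  choose! next h1 h2 h3 using hstep
  let A : ℕ → Set ℕ := fun n => Nat.rec A0 (fun n A => next (n + 1) A) n
  have hAinf : ∀ n, (A n).Infinite := by
    intro n
    induction n with
    | zero => exact hA0
    | succ n ih => exact h2 (n + 1) (A n) ih
  have hAsub : ∀ n, A (n + 1) ⊆ A n := fun n => h1 (n + 1) (A n) (hAinf n)
  have hAF : ∀ n, Full U n (A n) := by
    intro n
    cases n with
    | zero => exact hF0
    | succ n => exact h3 (n + 1) (A n) (hAinf n)
  have hanti : Antitone A := antitone_nat_of_succ_le hAsub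
  have hgt : ∀ n a : ℕ, ∃ b, b ∈ A n ∧ a < b := fun n a => (hAinf n).exists_gt a
  choose f hf1 hf2 using hgt
  let c : ℕ → ℕ := fun n => Nat.rec (f 0 0) (fun n x => f (n + 1) x) n
  have hc1 : ∀ n, c n ∈ A n := by
    intro n
    cases n with
    | zero => exact hf1 0 0
    | succ n => exact hf1 (n + 1) (c n)
  have hc2 : ∀ n, c n < c (n + 1) := fun n => hf2 (n + 1) (c n)
  refine ⟨c, (strictMono_nat_of_lt_succ hc2).injective, fun n => ?_⟩
  refine ALMOST_mono n (A n) _ ?_ (hAF n)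
  rintro x ⟨i, hi, rfl⟩
  exact hanti hi (hc1 i)

end Pool.Agent.H533R2.TG.P
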