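import Mathlib
import Pool.Agent.H533R2.TG.Defs

set_option autoImplicit false

namespace Pool.Agent.H533R2.TG.P

open Set

/-- symmetric neighbourhood whose square is small -/
theorem BASE_step (τ : TopologicalSpace G) (hg : @IsTopologicalGroup G τ _) (V : Set G)
    (hV : V ∈ @nhds G τ 1) : ∃ W ∈ @nhds G τ 1, (∀ g ∈ W, g⁻¹ ∈ W) ∧
      ∀ g ∈ W, ∀ h ∈ W, g * h ∈ V := by
  let _ := τ
  have := hg
  obtain ⟨W, hW, h1, hWV⟩ := exists_open_nhds_one_split hV
  have h2 : W ∈ nhds (1 : G) := hW.mem_nhds h1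
  have h3 : {g : G | g⁻¹ ∈ W} ∈ nhds (1 : G) := by
    have hc : Filter.Tendsto (fun g : G => g⁻¹) (nhds 1) (nhds (1 : G)) := by
      have := (continuous_inv (G := G)).tendsto 1
      rwa [inv_one] at this
    exact hc h2
  refine ⟨W ∩ {g : G | g⁻¹ ∈ W}, Filter.inter_mem h2 h3, ?_, ?_⟩
  · rintro g ⟨ha, hb⟩
    exact ⟨hb, by simpa using ha⟩
  · rintro g ⟨ha, -⟩ h ⟨hb, -⟩
    exact hWV g ha h hb

/-- BASE -/
theorem exists_base (τ : TopologicalSpace G) (hg : @IsTopologicalGroup G τ _)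
    (h2 : @T2Space G τ) (hf : @FirstCountableTopology G τ) :
    ∃ U : ℕ → Set G, Base U ∧ ∀ V : Set G, V ∈ @nhds G τ 1 ↔ ∃ n, U n ⊆ V := by
  let _ := τ
  have := hg
  have := h2
  have := hf
  obtain ⟨B, hB⟩ := (nhds (1 : G)).exists_antitone_basis
  have hBn : ∀ n, B n ∈ nhds (1 : G) := fun n => hB.1.mem_of_mem trivial
  have hBm : ∀ V : Set G, V ∈ nhds (1 : G) → ∃ n, B n ⊆ V := by
    intro V hV
    obtain ⟨n, -, hn⟩ := hB.1.mem_iff.mp hV
    exact ⟨n, hn⟩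
  have hst := BASE_step τ hg
  choose! S hS1 hS2 hS3 using hst
  let U' : ℕ → {V : Set G // V ∈ nhds (1 : G)} := fun n => Nat.rec ⟨univ, Filter.univ_mem⟩
    (fun n V => ⟨S (V.1 ∩ B n), hS1 _ (Filter.inter_mem V.2 (hBn n))⟩) n
  let U : ℕ → Set G := fun n => (U' n).1
  have hU : ∀ n, U n ∈ nhds (1 : G) := fun n => (U' n).2
  have hUB : ∀ n, U n ∩ B n ∈ nhds (1 : G) := fun n => Filter.inter_mem (hU n) (hBn n)
  have hUs : ∀ n, U (n + 1) = S (U n ∩ B n) := fun n => rfl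
  have hmul : ∀ n, ∀ g ∈ U (n + 1), ∀ h ∈ U (n + 1), g * h ∈ U n ∩ B n := by
    intro n g hg' h hh
    rw [hUs] at hg' hh
    exact hS3 _ (hUB n) g hg' h hh
  have hone : ∀ n, (1 : G) ∈ U n := fun n => mem_of_mem_nhds (hU n)
  have hsub : ∀ n, U (n + 1) ⊆ U n ∩ B n := by
    intro n g hg'
    have := hmul n g hg' 1 (hone (n + 1))
    rwa [mul_one] at this
  refine ⟨U, ⟨hone, fun n g hg' => (hsub n hg').1, ?_, fun n g hg' h hh => (hmul n g hg' h hh).1,
    ?_, ?_⟩, ?_⟩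
  · intro n
    cases n with
    | zero => intro g _; exact mem_univ _
    | succ n =>
      intro g hg'
      rw [hUs] at hg' ⊢
      exact hS2 _ (hUB n) g hg'
  · intro n g
    have hc : {h : G | g * h * g⁻¹ ∈ U n} ∈ nhds (1 : G) := by
      have h3 : Filter.Tendsto (fun h : G => g * h * g⁻¹) (nhds 1) (nhds (1 : G)) := by
        have h4 : Continuous (fun h : G => g * h * g⁻¹) := by fun_prop
        have h5 := h4.tendsto 1
        have e : g * 1 * g⁻¹ = 1 := by group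
        rwa [e] at h5
      exact h3 (hU n)
    obtain ⟨m, hm⟩ := hBm _ hc
    exact ⟨m + 1, fun h hh => hm (hsub m hh).2⟩
  · intro g hgn
    by_contra hne
    have hc : ({g}ᶜ : Set G) ∈ nhds (1 : G) := isOpen_compl_singleton.mem_nhds (Ne.symm hne)
    obtain ⟨m, hm⟩ := hBm _ hc
    exact hm (hsub m (hgn (m + 1))).2 rfl
  · intro V
    constructor
    · intro hV
      obtain ⟨m, hm⟩ := hBm V hV
      exact ⟨m + 1, fun g hg' => hm (hsub m hg').2⟩
    · rintro ⟨n, hn⟩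
      exact Filter.mem_of_superset (hU n) hn

end Pool.Agent.H533R2.TG.P
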