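import Mathlib
import Pool.Agent.H533R2.TG.Defs
import Pool.Agent.H533R2.TG.P.AD

set_option autoImplicit false

/-! FAM (helper332) -/

namespace Pool.Agent.H533R2.TG.P

open Set

namespace FAM

open Classical in
/-- the function attached to an infinite set -/
noncomputable def fn (X : Set ℕ) (x : ℕ) : ℕ :=
  if x ∈ X then (Nat.unpair (Nat.count (· ∈ X) x)).1 else x

theorem fn_fiber {X : Set ℕ} (hX : X.Infinite) (k : ℕ) : {x | fn X x = k}.Infinite := by
  classical
  have h1 : (range fun i : ℕ => Nat.nth (· ∈ X) (Nat.pair k i)).Infinite := by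
    apply infinite_range_of_injective
    intro i j hij
    have h2 := Nat.nth_injective hX hij
    have := (Nat.pair_eq_pair.1 h2).2
    exact this
  refine h1.mono ?_
  rintro _ ⟨i, rfl⟩
  change fn X (Nat.nth (· ∈ X) (Nat.pair k i)) = k
  have hmem : Nat.nth (· ∈ X) (Nat.pair k i) ∈ X := Nat.nth_mem_of_infinite hX _
  unfold fn
  rw [if_pos hmem]
  have h3 := Nat.count_nth_of_infinite (p := (· ∈ X)) hX (Nat.pair k i)
  have h4 : Nat.unpair (Nat.count (· ∈ X) (Nat.nth (· ∈ X) (Nat.pair k i))) = (k, i) := by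
    rw [h3, Nat.unpair_pair]
  convert congrArg Prod.fst h4

theorem fn_not_mem {X : Set ℕ} {x : ℕ} (hx : x ∉ X) : fn X x = x := by
  unfold fn
  rw [if_neg hx]

end FAM

open FAM

theorem family : ∃ f : (ℕ → Bool) → ℕ → ℕ, (∀ ξ k, {x | f ξ x = k}.Infinite) ∧
    ∀ ξ η, ξ ≠ η → ∀ m, {x | f ξ x ≤ m ∧ f η x ≤ m}.Finite ∧
      {x | m < f ξ x ∧ m < f η x}.Infinite := by
  obtain ⟨X, hX, hXX⟩ := Pool.Agent.H533R2.TG.P.ad_family
  refine ⟨fun ξ => fn (X ξ), fun ξ k => fn_fiber (hX ξ) k, fun ξ η hne m => ⟨?_, ?_⟩⟩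
  · refine ((hXX ξ η hne).union (finite_le_nat m)).subset ?_
    rintro x ⟨h1, h2⟩
    change fn (X ξ) x ≤ m at h1
    change fn (X η) x ≤ m at h2
    by_cases hx : x ∈ X ξ
    · by_cases hx' : x ∈ X η
      · exact Or.inl ⟨hx, hx'⟩
      · right
        rw [fn_not_mem hx'] at h2
        exact h2
    · right
      rw [fn_not_mem hx] at h1
      exact h1
  · -- a third set
    obtain ⟨ζ, hζ1, hζ2⟩ : ∃ ζ : ℕ → Bool, ζ ≠ ξ ∧ ζ ≠ η := by
      refine ⟨fun n => if n = 0 then !(ξ 0) else !(η n), ?_, ?_⟩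
      · intro h
        have := congrFun h 0
        simp at this
      · intro h
        have := congrFun h 1
        simp at this
    have h1 : ((X ζ) \ ((X ζ ∩ X ξ) ∪ (X ζ ∩ X η) ∪ {x | x ≤ m})).Infinite :=
      (hX ζ).sdiff (((hXX ζ ξ hζ1).union (hXX ζ η hζ2)).union (finite_le_nat m))
    refine h1.mono ?_
    rintro x ⟨hx, hx'⟩
    simp only [mem_union, mem_inter_iff, mem_ofPred_eq, not_or, not_and, not_le] at hx'
    show m < fn (X ξ) x ∧ m < fn (X η) x
    rw [fn_not_mem (hx'.1.1 hx), fn_not_mem (hx'.1.2 hx)]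
    exact ⟨hx'.2, hx'.2⟩

end Pool.Agent.H533R2.TG.P
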