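import Mathlib
import Pool.Agent.H533R2.TG.Defs

set_option autoImplicit false

namespace Pool.Agent.H533R2.TG.P

open Set

/-- FIBERS -/
theorem fiber_perm (f g : ℕ → ℕ) (hf : ∀ k, {x | f x = k}.Infinite)
    (hg : ∀ k, {x | g x = k}.Infinite) : ∃ c : G, ∀ x, g (c x) = f x := by
  have he : ∀ k, Nonempty ({x // f x = k} ≃ {x // g x = k}) := by
    intro k
    have h1 : Infinite {x // f x = k} := (hf k).to_subtype
    have h2 : Infinite {x // g x = k} := (hg k).to_subtype
    exact nonempty_equiv_of_countable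
  let e : ∀ k, {x // f x = k} ≃ {x // g x = k} := fun k => Classical.choice (he k)
  let c : G := (Equiv.sigmaFiberEquiv f).symm.trans
    ((Equiv.sigmaCongrRight e).trans (Equiv.sigmaFiberEquiv g))
  refine ⟨c, ?_⟩
  intro x
  exact (e (f x) ⟨x, rfl⟩).2

end Pool.Agent.H533R2.TG.P
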