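import Mathlib
import Pool.Agent.H533R2.TG.Defs

set_option autoImplicit false

namespace Pool.Agent.H533R2.TG.P

open Set

open Classical in
/-- the conjugating map -/
noncomputable def conjinvMap (C : Set ℕ) (a b : G) (ha : a * a = 1)
    (e1 : {x // x < a x} ≃ {x // x < b x})
    (e0 : {x // x ∈ C ∧ a x = x} ≃ {x // x ∈ C ∧ b x = x}) (x : ℕ) : ℕ :=
  if h1 : x < a x then (e1 ⟨x, h1⟩).1
  else if h2 : a x < x then b (e1 ⟨a x, by
    have : a (a x) = x := by rw [← Equiv.Perm.mul_apply, ha]; rfl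
    rw [this]; exact h2⟩).1
  else if h3 : x ∈ C then (e0 ⟨x, h3, le_antisymm (not_lt.mp h1) (not_lt.mp h2)⟩).1
  else x

theorem conjinv_aa {a : G} (ha : a * a = 1) (x : ℕ) : a (a x) = x := by
  rw [← Equiv.Perm.mul_apply, ha]; rfl

theorem conjinv_l1 (C : Set ℕ) (a b : G) (ha : a * a = 1)
    (e1 : {x // x < a x} ≃ {x // x < b x})
    (e0 : {x // x ∈ C ∧ a x = x} ≃ {x // x ∈ C ∧ b x = x}) (x : ℕ) (h : x < a x) :
    conjinvMap C a b ha e1 e0 x = (e1 ⟨x, h⟩).1 := by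
  unfold conjinvMap
  rw [dif_pos h]

theorem conjinv_l2 (C : Set ℕ) (a b : G) (ha : a * a = 1)
    (e1 : {x // x < a x} ≃ {x // x < b x})
    (e0 : {x // x ∈ C ∧ a x = x} ≃ {x // x ∈ C ∧ b x = x}) (x : ℕ) (h : x < a x) :
    conjinvMap C a b ha e1 e0 (a x) = b (e1 ⟨x, h⟩).1 := by
  unfold conjinvMap
  have h1 : ¬ (a x < a (a x)) := by
    rw [conjinv_aa ha]; exact not_lt.mpr h.le
  have h2 : a (a x) < a x := by rw [conjinv_aa ha]; exact h
  rw [dif_neg h1, dif_pos h2]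
  congr 3
  exact Subtype.ext (conjinv_aa ha x)

theorem conjinv_l3 (C : Set ℕ) (a b : G) (ha : a * a = 1)
    (e1 : {x // x < a x} ≃ {x // x < b x})
    (e0 : {x // x ∈ C ∧ a x = x} ≃ {x // x ∈ C ∧ b x = x}) (x : ℕ) (h : x ∈ C ∧ a x = x) :
    conjinvMap C a b ha e1 e0 x = (e0 ⟨x, h⟩).1 := by
  unfold conjinvMap
  rw [dif_neg (by rw [h.2]; exact lt_irrefl _), dif_neg (by rw [h.2]; exact lt_irrefl _),
    dif_pos h.1]

theorem conjinv_l4 (C : Set ℕ) (a b : G) (ha : a * a = 1)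
    (e1 : {x // x < a x} ≃ {x // x < b x})
    (e0 : {x // x ∈ C ∧ a x = x} ≃ {x // x ∈ C ∧ b x = x}) (x : ℕ) (h : x ∉ C) (h' : a x = x) :
    conjinvMap C a b ha e1 e0 x = x := by
  unfold conjinvMap
  rw [dif_neg (by rw [h']; exact lt_irrefl _), dif_neg (by rw [h']; exact lt_irrefl _),
    dif_neg h]

theorem conjinv_inv (C : Set ℕ) (a b : G) (ha : a * a = 1) (hb : b * b = 1)
    (haC : mv a ⊆ C) (hbC : mv b ⊆ C)
    (e1 : {x // x < a x} ≃ {x // x < b x})
    (e0 : {x // x ∈ C ∧ a x = x} ≃ {x // x ∈ C ∧ b x = x}) (x : ℕ) :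
    conjinvMap C b a hb e1.symm e0.symm (conjinvMap C a b ha e1 e0 x) = x := by
  rcases lt_trichotomy x (a x) with h | h | h
  · rw [conjinv_l1 C a b ha e1 e0 x h,
      conjinv_l1 C b a hb e1.symm e0.symm _ (e1 ⟨x, h⟩).2]
    have : (⟨(e1 ⟨x, h⟩).1, (e1 ⟨x, h⟩).2⟩ : {x // x < b x}) = e1 ⟨x, h⟩ := rfl
    rw [this, Equiv.symm_apply_apply]
  · by_cases hC : x ∈ C
    · rw [conjinv_l3 C a b ha e1 e0 x ⟨hC, h.symm⟩,
        conjinv_l3 C b a hb e1.symm e0.symm _ (e0 ⟨x, hC, h.symm⟩).2]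
      have : (⟨(e0 ⟨x, hC, h.symm⟩).1, (e0 ⟨x, hC, h.symm⟩).2⟩ : {x // x ∈ C ∧ b x = x}) =
        e0 ⟨x, hC, h.symm⟩ := rfl
      rw [this, Equiv.symm_apply_apply]
    · rw [conjinv_l4 C a b ha e1 e0 x hC h.symm]
      have hbx : b x = x := by
        by_contra hc
        exact hC (hbC hc)
      rw [conjinv_l4 C b a hb e1.symm e0.symm x hC hbx]
  · have h2 : a x < a (a x) := by rw [conjinv_aa ha]; exact h
    have e := conjinv_l2 C a b ha e1 e0 (a x) h2
    rw [conjinv_aa ha] at e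
    rw [e, conjinv_l2 C b a hb e1.symm e0.symm _ (e1 ⟨a x, h2⟩).2]
    have : (⟨(e1 ⟨a x, h2⟩).1, (e1 ⟨a x, h2⟩).2⟩ : {x // x < b x}) = e1 ⟨a x, h2⟩ := rfl
    rw [this, Equiv.symm_apply_apply, conjinv_aa ha]

theorem conjinv_infinite {a : G} (ha : a * a = 1) (h : (mv a).Infinite) :
    {x | x < a x}.Infinite := by
  intro hfin
  apply h
  refine (hfin.union (hfin.image a)).subset ?_
  intro x hx
  rcases lt_trichotomy x (a x) with g | g | g
  · exact Or.inl g
  · exact absurd g.symm hx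
  · right
    refine ⟨a x, ?_, conjinv_aa ha x⟩
    change a x < a (a x)
    rw [conjinv_aa ha]; exact g

/-- CONJINV -/
theorem conj_inv (C : Set ℕ) (a b : G) (ha : a * a = 1) (hb : b * b = 1) (haC : mv a ⊆ C)
    (hbC : mv b ⊆ C) (h1 : (mv a).Infinite) (h2 : (mv b).Infinite) (h3 : (C \ mv a).Infinite)
    (h4 : (C \ mv b).Infinite) : ∃ σ : G, mv σ ⊆ C ∧ σ * a * σ⁻¹ = b := by
  have i1 : Infinite {x // x < a x} := (conjinv_infinite ha h1).to_subtype
  have i2 : Infinite {x // x < b x} := (conjinv_infinite hb h2).to_subtype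
  have i3 : Infinite {x // x ∈ C ∧ a x = x} := by
    have : (C \ mv a) = {x | x ∈ C ∧ a x = x} := by
      ext x
      constructor
      · rintro ⟨g1, g2⟩
        exact ⟨g1, by by_contra hc; exact g2 hc⟩
      · rintro ⟨g1, g2⟩
        exact ⟨g1, fun hc => hc g2⟩
    rw [this] at h3
    exact h3.to_subtype
  have i4 : Infinite {x // x ∈ C ∧ b x = x} := by
    have : (C \ mv b) = {x | x ∈ C ∧ b x = x} := by
      ext x
      constructor
      · rintro ⟨g1, g2⟩
        exact ⟨g1, by by_contra hc; exact g2 hc⟩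
      · rintro ⟨g1, g2⟩
        exact ⟨g1, fun hc => hc g2⟩
    rw [this] at h4
    exact h4.to_subtype
  obtain ⟨e1⟩ : Nonempty ({x // x < a x} ≃ {x // x < b x}) := nonempty_equiv_of_countable
  obtain ⟨e0⟩ : Nonempty ({x // x ∈ C ∧ a x = x} ≃ {x // x ∈ C ∧ b x = x}) :=
    nonempty_equiv_of_countable
  let σ : G :=
    { toFun := conjinvMap C a b ha e1 e0
      invFun := conjinvMap C b a hb e1.symm e0.symm
      left_inv := conjinv_inv C a b ha hb haC hbC e1 e0
      right_inv := by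
        intro x
        have := conjinv_inv C b a hb ha hbC haC e1.symm e0.symm x
        rwa [Equiv.symm_symm, Equiv.symm_symm] at this }
  have hσ : ∀ x, σ (a x) = b (σ x) := by
    intro x
    change conjinvMap C a b ha e1 e0 (a x) = b (conjinvMap C a b ha e1 e0 x)
    rcases lt_trichotomy x (a x) with h | h | h
    · rw [conjinv_l2 C a b ha e1 e0 x h, conjinv_l1 C a b ha e1 e0 x h]
    · by_cases hC : x ∈ C
      · rw [← h, conjinv_l3 C a b ha e1 e0 x ⟨hC, h.symm⟩]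
        exact (e0 ⟨x, hC, h.symm⟩).2.2.symm
      · rw [← h, conjinv_l4 C a b ha e1 e0 x hC h.symm]
        by_contra hc
        exact hC (hbC (fun hh => hc hh.symm))
    · have g : a x < a (a x) := by rw [conjinv_aa ha]; exact h
      have e := conjinv_l2 C a b ha e1 e0 (a x) g
      rw [conjinv_aa ha] at e
      rw [e, conjinv_l1 C a b ha e1 e0 (a x) g, conjinv_aa hb]
  refine ⟨σ, ?_, ?_⟩
  · intro x hx
    by_contra hC
    apply hx
    have : a x = x := by
      by_contra hc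
      exact hC (haC hc)
    exact conjinv_l4 C a b ha e1 e0 x hC this
  · ext1 x
    rw [Equiv.Perm.mul_apply, Equiv.Perm.mul_apply, hσ]
    congr 1
    exact σ.apply_symm_apply x

end Pool.Agent.H533R2.TG.P
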