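import Mathlib
import Pool.Agent.H533R2.TG.Defs

set_option autoImplicit false

namespace Pool.Agent.H533R2.TG.P

open Set

/-- CTB -/
theorem countable_fin : {g : G | (mv g).Finite}.Countable := by
  classical
  rw [← Set.countable_coe_iff]
  let f : {g : G | (mv g).Finite} → Finset (ℕ × ℕ) := fun g =>
    (g.2 : (mv g.1).Finite).toFinset.image (fun x => (x, g.1 x))
  apply Function.Injective.countable (f := f)
  rintro ⟨g, hg⟩ ⟨h, hh⟩ hgh
  have key : ∀ (g h : G) (hg : (mv g).Finite) (hh : (mv h).Finite),
      hg.toFinset.image (fun x => (x, g x)) = hh.toFinset.image (fun x => (x, h x)) →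
      ∀ x, g x ≠ x → h x = g x := by
    intro g h hg hh e x hx
    have h1 : (x, g x) ∈ hg.toFinset.image (fun x => (x, g x)) := by
      rw [Finset.mem_image]
      exact ⟨x, by rw [Set.Finite.mem_toFinset]; exact hx, rfl⟩
    rw [e, Finset.mem_image] at h1
    obtain ⟨y, hy, hxy⟩ := h1
    have h2 : y = x := congrArg Prod.fst hxy
    have h3 : h y = g x := congrArg Prod.snd hxy
    rw [← h2] at h3 ⊢
    exact h3
  have hgh' : hg.toFinset.image (fun x => (x, g x)) = hh.toFinset.image (fun x => (x, h x)) := hgh
  apply Subtype.ext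
  show g = h
  ext x
  by_cases hx : g x = x
  · by_cases hx' : h x = x
    · rw [hx, hx']
    · have := key h g hh hg hgh'.symm x hx'
      rw [this]
  · have := key g h hg hh hgh' x hx
    rw [this]

end Pool.Agent.H533R2.TG.P
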