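import Mathlib
import Pool.Agent.H533R2.TG.Defs
import Pool.Agent.H533R2.TG.P.AD
import Pool.Agent.H533R2.TG.P.CTB

set_option autoImplicit false

namespace Pool.Agent.H533R2.TG.P

open Set

namespace INVOL

/-- the points of the blocks -/
def io (c : ℕ → ℕ) (hc : Function.Injective c) (n : ℕ) : ℕ × Fin 5 ↪ ℕ where
  toFun p := c (n + (5 * p.1 + p.2.val))
  inj' := by
    rintro ⟨j, r⟩ ⟨j', r'⟩ h
    have h0 := hc h
    simp only at h0
    have h1 := r.2
    have h2 := r'.2
    have h3 : j = j' := by omega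
    have h4 : r.val = r'.val := by omega
    exact Prod.ext h3 (Fin.ext h4)

/-- blockwise permutations -/
noncomputable def ph (e : ℕ × Fin 5 ↪ ℕ) (f : ℕ → Equiv.Perm (Fin 5)) : G :=
  Equiv.Perm.viaEmbedding (Equiv.prodCongrRight f) e

variable {e : ℕ × Fin 5 ↪ ℕ}

theorem ph_in (f : ℕ → Equiv.Perm (Fin 5)) (j : ℕ) (r : Fin 5) :
    ph e f (e (j, r)) = e (j, f j r) := by
  unfold ph
  rw [Equiv.Perm.viaEmbedding_apply]
  rfl

theorem ph_out (f : ℕ → Equiv.Perm (Fin 5)) {x : ℕ} (hx : x ∉ range e) : ph e f x = x := by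
  unfold ph
  exact Equiv.Perm.viaEmbedding_apply_of_notMem _ _ _ hx

theorem ph_mul (f g : ℕ → Equiv.Perm (Fin 5)) : ph e f * ph e g = ph e (fun j => f j * g j) := by
  ext x
  rw [Equiv.Perm.mul_apply]
  by_cases hx : x ∈ range e
  · obtain ⟨⟨j, r⟩, rfl⟩ := hx
    rw [ph_in, ph_in, ph_in, Equiv.Perm.mul_apply]
  · rw [ph_out g hx, ph_out f hx, ph_out _ hx]

theorem ph_one : ph e (fun _ => 1) = 1 := by
  ext x
  by_cases hx : x ∈ range e
  · obtain ⟨⟨j, r⟩, rfl⟩ := hx
    rw [ph_in]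
    rfl
  · rw [ph_out _ hx]
    rfl

theorem ph_inv (f : ℕ → Equiv.Perm (Fin 5)) : (ph e f)⁻¹ = ph e (fun j => (f j)⁻¹) := by
  rw [inv_eq_iff_mul_eq_one, ph_mul]
  simp only [mul_inv_cancel]
  exact ph_one

/-- the permutations of the blocks -/
def tp : Equiv.Perm (Fin 5) := Equiv.swap 0 1
def yp : Equiv.Perm (Fin 5) := Equiv.swap 0 2 * Equiv.swap 1 3
def vp : Equiv.Perm (Fin 5) := Equiv.swap 0 1 * Equiv.swap 2 3

theorem tp_tp : tp * tp = 1 := by decide
theorem vp_vp : vp * vp = 1 := by decide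
theorem comm_p : tp * (yp * tp * yp⁻¹) = vp := by decide
theorem vp_ne (r : Fin 5) (hr : r ≠ 4) : vp r ≠ r := by
  revert r; decide
theorem vp_four : vp 4 = 4 := by decide

open Classical in
/-- `y_X` -/
noncomputable def Y (e : ℕ × Fin 5 ↪ ℕ) (X : Set ℕ) : G := ph e fun j => if j ∈ X then yp else 1

open Classical in
/-- `v_X` -/
noncomputable def V (e : ℕ × Fin 5 ↪ ℕ) (X : Set ℕ) : G := ph e fun j => if j ∈ X then vp else 1

/-- the part of `τ` in the tail -/
noncomputable def T (e : ℕ × Fin 5 ↪ ℕ) (n m : ℕ) : G :=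
  ph e fun j => if m ≤ n + 5 * j then tp else 1

theorem T_T (e : ℕ × Fin 5 ↪ ℕ) (n m : ℕ) (x : ℕ) : T e n m (T e n m x) = x := by
  rw [← Equiv.Perm.mul_apply]
  unfold T
  rw [ph_mul]
  have : (fun j => (if m ≤ n + 5 * j then tp else 1) * (if m ≤ n + 5 * j then tp else 1)) =
      fun _ => (1 : Equiv.Perm (Fin 5)) := by
    funext j
    split_ifs
    · exact tp_tp
    · simp
  rw [this, ph_one]
  rfl

section

variable (c : ℕ → ℕ) (hc : Function.Injective c) (n : ℕ)

theorem range_io : range (io c hc n) = tail c n := by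
  ext x
  constructor
  · rintro ⟨⟨j, r⟩, rfl⟩
    exact ⟨n + (5 * j + r.val), by omega, rfl⟩
  · rintro ⟨i, hi, rfl⟩
    refine ⟨((i - n) / 5, ⟨(i - n) % 5, Nat.mod_lt _ (by norm_num)⟩), ?_⟩
    show c (n + (5 * ((i - n) / 5) + (i - n) % 5)) = c i
    congr 1
    have := Nat.div_add_mod (i - n) 5
    omega

theorem T_tail (m : ℕ) (x : ℕ) (hx : x ∈ tail c m) : T (io c hc n) n m x ∈ tail c m := by
  by_cases h : x ∈ range (io c hc n)
  · obtain ⟨⟨j, r⟩, rfl⟩ := h
    unfold T
    rw [ph_in]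
    by_cases h1 : m ≤ n + 5 * j
    · rw [if_pos h1]
      exact ⟨n + (5 * j + (tp r).val), by omega, rfl⟩
    · rw [if_neg h1]
      exact hx
  · unfold T
    rw [ph_out _ h]
    exact hx

theorem mv_T (m : ℕ) : mv (T (io c hc n) n m) ⊆ tail c m := by
  intro x hx
  by_contra hcon
  apply hx
  by_cases h : x ∈ range (io c hc n)
  · obtain ⟨⟨j, r⟩, rfl⟩ := h
    unfold T
    rw [ph_in]
    by_cases h1 : m ≤ n + 5 * j
    · exact absurd ⟨n + (5 * j + r.val), by omega, rfl⟩ hcon
    · rw [if_neg h1]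
      rfl
  · unfold T
    rw [ph_out _ h]

/-- the finite difference -/
theorem finite_diff (m : ℕ) (hm : n ≤ m) (k : G)
    (hk : ∀ b ∈ tail c m, k b = T (io c hc n) n m b) (X : Set ℕ) :
    {x | (k * (Y (io c hc n) X * k⁻¹ * (Y (io c hc n) X)⁻¹)) x ≠ V (io c hc n) X x}.Finite := by
  classical
  -- the inverse on the tail
  have hk' : ∀ b ∈ tail c m, k⁻¹ b = T (io c hc n) n m b := by
    intro b hb
    rw [Equiv.Perm.inv_eq_iff_eq, hk _ (T_tail c hc n m b hb), T_T]
  have hkt : ∀ b ∈ tail c m, k b ∈ tail c m := by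
    intro b hb
    rw [hk b hb]
    exact T_tail c hc n m b hb
  have hfin : ((c '' Iio (m + 5)) ∪ ((fun i => k (c i)) '' Iio (m + 5))).Finite :=
    ((finite_Iio _).image _).union ((finite_Iio _).image _)
  refine hfin.subset ?_
  intro x hx
  by_contra hcon
  apply hx
  simp only [mem_union, mem_image, mem_Iio, not_or, not_exists, not_and] at hcon
  obtain ⟨h1, h2⟩ := hcon
  simp only [Equiv.Perm.mul_apply]
  by_cases hxc : ∃ i, c i = x
  · obtain ⟨i, rfl⟩ := hxc
    have hi : m + 5 ≤ i := by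
      by_contra hlt
      exact h1 i (by omega) rfl
    have hr : c i ∈ range (io c hc n) := by
      rw [range_io]
      exact ⟨i, by omega, rfl⟩
    obtain ⟨⟨j, r⟩, hjr⟩ := hr
    have hj : m ≤ n + 5 * j := by
      have h3 : c (n + (5 * j + r.val)) = c i := hjr
      have h4 := hc h3
      have := r.2
      omega
    rw [← hjr]
    have hin : ∀ r', io c hc n (j, r') ∈ tail c m := fun r' => ⟨n + (5 * j + r'.val), by omega, rfl⟩
    have hkb : ∀ r', k (io c hc n (j, r')) = io c hc n (j, tp r') := by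
      intro r'
      rw [hk _ (hin r')]
      unfold T
      rw [ph_in, if_pos hj]
    have hkb' : ∀ r', k⁻¹ (io c hc n (j, r')) = io c hc n (j, tp r') := by
      intro r'
      rw [hk' _ (hin r')]
      unfold T
      rw [ph_in, if_pos hj]
    unfold Y V
    rw [ph_inv, ph_in, hkb', ph_in, hkb, ph_in]
    congr 2
    by_cases hX : j ∈ X
    · rw [if_pos hX, if_pos hX, ← comm_p]
      rfl
    · rw [if_neg hX, if_neg hX]
      simp only [inv_one, Equiv.Perm.one_apply]
      exact congrArg (fun p : Equiv.Perm (Fin 5) => p r) tp_tp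
  · have hout : ∀ z, (¬ ∃ i, c i = z) → z ∉ range (io c hc n) := by
      intro z hz hz'
      rw [range_io] at hz'
      obtain ⟨i, _, hi⟩ := hz'
      exact hz ⟨i, hi⟩
    have h3 : ¬ ∃ i, c i = k⁻¹ x := by
      rintro ⟨i, hi⟩
      have h4 : k (c i) = x := by rw [hi]; simp
      by_cases him : i < m + 5
      · exact h2 i him h4
      · have h5 := hkt (c i) ⟨i, by omega, rfl⟩
        rw [h4] at h5
        obtain ⟨i', _, hi'⟩ := h5
        exact hxc ⟨i', hi'⟩
    unfold Y V
    rw [ph_inv, ph_out _ (hout x hxc), ph_out _ (hout _ h3), ph_out _ (hout x hxc)]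
    simp

end

end INVOL

open INVOL

/-- INVOL -/
theorem small_inv {U : ℕ → Set G} (hU : Base U) (c : ℕ → ℕ) (hc : Function.Injective c)
    (hF : ∀ n, Full U n (tail c n)) (n : ℕ) :
    ∃ s ∈ U n, mv s ⊆ tail c n ∧ s * s = 1 ∧ (mv s).Infinite ∧ (tail c n \ mv s).Infinite := by
  classical
  obtain ⟨Z, hZ1, hZ2⟩ := Pool.Agent.H533R2.TG.P.ad_family
  have hanti : ∀ i j, i ≤ j → U j ⊆ U i := by
    intro i j hij
    induction hij with
    | refl => exact fun x hx => hx
    | step _ ih => exact fun x hx => ih (hU.anti _ hx)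
  have hex : ∀ X : Set ℕ, ∃ w ∈ U (n + 1), (mv ((V (io c hc n) X)⁻¹ * w)).Finite := by
    intro X
    obtain ⟨m0, hm0⟩ := hU.conj (n + 2) (Y (io c hc n) X)
    obtain ⟨k, hk1, hk2⟩ := hF (max m0 (n + 2)) (T (io c hc n) n (max m0 (n + 2)))
      (mv_T c hc n _)
    refine ⟨k * (Y (io c hc n) X * k⁻¹ * (Y (io c hc n) X)⁻¹), ?_, ?_⟩
    · apply hU.mul (n + 1)
      · exact hanti _ _ (le_max_right _ _) hk1
      · exact hm0 _ (hU.inv _ _ (hanti _ _ (le_max_left _ _) hk1))
    · have h := finite_diff c hc n (max m0 (n + 2))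
        (le_trans (by omega) (le_max_right m0 (n + 2))) k hk2 X
      refine h.subset ?_
      intro x hx hcon
      apply hx
      rw [Equiv.Perm.mul_apply, Equiv.Perm.inv_eq_iff_eq]
      exact hcon
  choose w hw1 hw2 using hex
  -- two indices with the same finitary part
  have hcoll : ∃ ξ η, ξ ≠ η ∧ (V (io c hc n) (Z ξ))⁻¹ * w (Z ξ) =
      (V (io c hc n) (Z η))⁻¹ * w (Z η) := by
    by_contra hcon
    push Not at hcon
    have hinj : Function.Injective (fun ξ : ℕ → Bool =>
        (⟨(V (io c hc n) (Z ξ))⁻¹ * w (Z ξ), hw2 (Z ξ)⟩ : {g : G | (mv g).Finite})) := by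
      intro ξ η h
      by_contra hne
      exact hcon ξ η hne (Subtype.ext_iff.1 h)
    have : Countable {g : G | (mv g).Finite} := Pool.Agent.H533R2.TG.P.countable_fin.to_subtype
    have h2 : Countable (ℕ → Bool) := hinj.countable
    obtain ⟨f, hf⟩ := exists_injective_nat (ℕ → Bool)
    refine Function.cantor_injective (fun S : Set ℕ => f (fun i => decide (i ∈ S))) ?_
    intro S S' hSS
    have h3 := hf hSS
    ext i
    have h4 := congrFun h3 i
    simpa using h4
  obtain ⟨ξ, η, hne, heq⟩ := hcoll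
  have hs : w (Z ξ) * (w (Z η))⁻¹ = V (io c hc n) (Z ξ) * (V (io c hc n) (Z η))⁻¹ := by
    have h1 : w (Z ξ) = V (io c hc n) (Z ξ) * ((V (io c hc n) (Z ξ))⁻¹ * w (Z ξ)) := by group
    rw [h1, heq]
    group
  have hform : V (io c hc n) (Z ξ) * (V (io c hc n) (Z η))⁻¹ =
      ph (io c hc n) (fun j => (if j ∈ Z ξ then vp else 1) * (if j ∈ Z η then vp else 1)⁻¹) := by
    unfold V
    rw [ph_inv, ph_mul]
  set q : ℕ → Equiv.Perm (Fin 5) :=
    fun j => (if j ∈ Z ξ then vp else 1) * (if j ∈ Z η then vp else 1)⁻¹ with hq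
  have hvinv : vp⁻¹ = vp := by decide
  have hqq : ∀ j, q j * q j = 1 := by
    intro j
    simp only [hq]
    split_ifs
    · simp
    · simp [vp_vp]
    · simp [hvinv, vp_vp]
    · simp
  have hq4 : ∀ j, q j 4 = 4 := by
    intro j
    simp only [hq]
    split_ifs
    · simp
    · simp [vp_four]
    · simp [hvinv, vp_four]
    · simp
  have hqv : ∀ j, j ∈ Z ξ → j ∉ Z η → q j = vp := by
    intro j h1 h2
    simp only [hq]
    rw [if_pos h1, if_neg h2]
    simp
  refine ⟨w (Z ξ) * (w (Z η))⁻¹, hU.mul n _ (hw1 _) _ (hU.inv _ _ (hw1 _)), ?_⟩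
  rw [hs, hform]
  refine ⟨?_, ?_, ?_, ?_⟩
  · intro x hx
    rw [← range_io c hc n]
    by_contra hcon
    exact hx (ph_out _ hcon)
  · rw [ph_mul]
    simp only [hqq]
    exact ph_one
  · have h1 : (Z ξ \ Z η).Infinite := by
      have : Z ξ \ Z η = Z ξ \ (Z ξ ∩ Z η) := by simp
      rw [this]
      exact (hZ1 ξ).sdiff (hZ2 ξ η hne)
    have h2 : ((fun j => io c hc n (j, 0)) '' (Z ξ \ Z η)).Infinite := by
      apply h1.image
      intro a _ b _ hab
      have := (io c hc n).injective hab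
      simpa using this
    refine h2.mono ?_
    rintro _ ⟨j, ⟨hj1, hj2⟩, rfl⟩
    show ph (io c hc n) q (io c hc n (j, 0)) ≠ io c hc n (j, 0)
    rw [ph_in, hqv j hj1 hj2]
    intro h
    have := (io c hc n).injective h
    simp only [Prod.mk.injEq, true_and] at this
    exact vp_ne 0 (by decide) this
  · have h2 : ((fun j => io c hc n (j, 4)) '' univ).Infinite := by
      apply infinite_univ.image
      intro a _ b _ hab
      have := (io c hc n).injective hab
      simpa using this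
    refine h2.mono ?_
    rintro _ ⟨j, _, rfl⟩
    refine ⟨?_, ?_⟩
    · rw [← range_io c hc n]
      exact mem_range_self _
    · intro h
      apply h
      rw [ph_in, hq4]

end Pool.Agent.H533R2.TG.P
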