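import Mathlib
import Pool.Agent.H533R2.TG.Defs

set_option autoImplicit false

namespace Pool.Agent.H533R2.TG.P

namespace INVTWO

/-- the involution of `ℕ` which exchanges `4i` and `4i+1` -/
def kf (n : ℕ) : ℕ := if n % 4 = 0 then n + 1 else if n % 4 = 1 then n - 1 else n

theorem kf_inv : Function.Involutive kf := by
  intro n
  unfold kf
  split_ifs <;> omega

def kp : Equiv.Perm ℕ := kf_inv.toPerm

theorem kp_apply (n : ℕ) : kp n = kf n := rfl

theorem kp_mul : kp * kp = 1 := by
  ext n
  exact kf_inv n

theorem infinite_of_inj {S : Set ℕ} (f : ℕ → ℕ) (hf : Function.Injective f)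
    (h : ∀ i, f i ∈ S) : S.Infinite :=
  Set.infinite_of_injective_forall_mem hf h

/-- restriction of an involution to an invariant set -/
theorem restr (a : G) (ha : a * a = 1) (M : Set ℕ) (hM : ∀ x, x ∈ M → a x ∈ M) :
    ∃ b : G, b * b = 1 ∧ (∀ x ∈ M, b x = a x) ∧ ∀ x, x ∉ M → b x = x := by
  classical
  have haa : ∀ x, a (a x) = x := fun x => by
    have := congrArg (fun g : G => g x) ha
    simpa using this
  have hinv : Function.Involutive (fun x => if x ∈ M then a x else x) := by
    intro x
    by_cases hx : x ∈ M
    · simp only [if_pos hx, if_pos (hM x hx), haa]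
    · simp only [if_neg hx]
  refine ⟨hinv.toPerm, ?_, ?_, ?_⟩
  · ext x
    exact hinv x
  · intro x hx
    show (if x ∈ M then a x else x) = a x
    rw [if_pos hx]
  · intro x hx
    show (if x ∈ M then a x else x) = x
    rw [if_neg hx]

end INVTWO

open INVTWO

/-- INVTWO -/
theorem inv_two (C : Set ℕ) (hC : C.Infinite) (a : G) (ha : a * a = 1) (haC : mv a ⊆ C) :
    ∃ b d : G, b * b = 1 ∧ d * d = 1 ∧ mv b ⊆ C ∧ mv d ⊆ C ∧ a = b * d ∧ (mv b).Infinite ∧
      (mv d).Infinite ∧ (C \ mv b).Infinite ∧ (C \ mv d).Infinite := by
  classical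
  have haa : ∀ x, a (a x) = x := fun x => by
    have := congrArg (fun g : G => g x) ha
    simpa using this
  by_cases h : (C \ mv a).Infinite
  · set e : ℕ ↪ ℕ := (h.natEmbedding).trans (Function.Embedding.subtype _) with he
    have heC : ∀ i, e i ∈ C \ mv a := fun i => (Set.Infinite.natEmbedding _ h i).2
    set κ : G := kp.viaEmbedding e with hκ
    have κe : ∀ i, κ (e i) = e (kf i) := fun i => Equiv.Perm.viaEmbedding_apply kp e i
    have κn : ∀ x, x ∉ Set.range e → κ x = x := fun x hx =>
      Equiv.Perm.viaEmbedding_apply_of_notMem kp e x hx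
    have κκ : κ * κ = 1 := by
      ext x
      by_cases hx : x ∈ Set.range e
      · obtain ⟨i, rfl⟩ := hx
        simp only [Equiv.Perm.mul_apply, κe, kf_inv i, Equiv.Perm.one_apply]
      · simp only [Equiv.Perm.mul_apply, κn x hx, Equiv.Perm.one_apply]
    have κκx : ∀ x, κ (κ x) = x := fun x => by
      have := congrArg (fun g : G => g x) κκ
      simpa using this
    have hfix : ∀ x ∈ Set.range e, a x = x := by
      rintro x ⟨i, rfl⟩
      by_contra hne
      exact (heC i).2 hne
    have hcomm : a * κ = κ * a := by
      ext x
      simp only [Equiv.Perm.mul_apply]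
      by_cases hx : x ∈ Set.range e
      · obtain ⟨i, rfl⟩ := hx
        rw [hfix (e i) ⟨i, rfl⟩, κe, hfix _ ⟨_, rfl⟩]
      · have : a x ∉ Set.range e := by
          intro h'
          have := hfix _ h'
          rw [haa] at this
          rw [← this] at h'
          exact hx h'
        rw [κn x hx, κn _ this]
    have hmvκ : mv κ ⊆ C := by
      intro x hx
      by_contra hxC
      apply hx
      apply κn
      rintro ⟨i, rfl⟩
      exact hxC (heC i).1
    have hmvκ' : ∀ x ∈ mv κ, a x = x := by
      intro x hx
      by_cases hxr : x ∈ Set.range e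
      · exact hfix x hxr
      · exact absurd (κn x hxr) hx
    have hb : ∀ x, (a * κ) x ≠ x → x ∈ C := by
      intro x hx
      by_contra hxC
      apply hx
      have h1 : κ x = x := by
        by_contra h'
        exact hxC (hmvκ h')
      have h2 : a x = x := by
        by_contra h'
        exact hxC (haC h')
      rw [Equiv.Perm.mul_apply, h1, h2]
    refine ⟨a * κ, κ, ?_, κκ, hb, hmvκ, ?_, ?_, ?_, ?_, ?_⟩
    · calc a * κ * (a * κ) = a * (κ * a) * κ := by group
        _ = a * (a * κ) * κ := by rw [hcomm]
        _ = (a * a) * (κ * κ) := by group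
        _ = 1 := by rw [ha, κκ, one_mul]
    · rw [mul_assoc, κκ, mul_one]
    · refine infinite_of_inj (fun i => e (4 * i)) ?_ ?_
      · intro i j hij
        have := e.injective hij
        omega
      · intro i hi
        simp only [Equiv.Perm.mul_apply, κe, hfix _ ⟨_, rfl⟩] at hi
        have := e.injective hi
        unfold kf at this
        split_ifs at this <;> omega
    · refine infinite_of_inj (fun i => e (4 * i)) ?_ ?_
      · intro i j hij
        have := e.injective hij
        omega
      · intro i hi
        simp only [κe] at hi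
        have := e.injective hi
        unfold kf at this
        split_ifs at this <;> omega
    · refine infinite_of_inj (fun i => e (4 * i + 2)) ?_ ?_
      · intro i j hij
        have := e.injective hij
        omega
      · intro i
        refine ⟨(heC _).1, fun hne => hne ?_⟩
        simp only [Equiv.Perm.mul_apply, κe, hfix _ ⟨_, rfl⟩]
        congr 1
        unfold kf
        split_ifs <;> omega
    · refine infinite_of_inj (fun i => e (4 * i + 2)) ?_ ?_
      · intro i j hij
        have := e.injective hij
        omega
      · intro i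
        refine ⟨(heC _).1, fun hne => hne ?_⟩
        simp only [κe]
        congr 1
        unfold kf
        split_ifs <;> omega
  · -- `mv a` is infinite
    have hmv : (mv a).Infinite := by
      intro hfin
      apply hC
      have : C ⊆ (C \ mv a) ∪ mv a := by
        intro x hx
        by_cases h' : x ∈ mv a
        · exact Or.inr h'
        · exact Or.inl ⟨hx, h'⟩
      exact ((Set.not_infinite.1 h).union hfin).subset this
    have hS : {x | x < a x}.Infinite := by
      intro hfin
      apply hmv
      have : mv a ⊆ {x | x < a x} ∪ a '' {x | x < a x} := by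
        intro x hx
        rcases lt_or_gt_of_ne hx with h' | h'
        · refine Or.inr ⟨a x, ?_, haa x⟩
          show a x < a (a x)
          rw [haa]; exact h'
        · exact Or.inl h'
      exact (hfin.union (hfin.image _)).subset this
    set e : ℕ ↪ ℕ := (hS.natEmbedding).trans (Function.Embedding.subtype _) with he
    have heS : ∀ i, e i < a (e i) := fun i => (Set.Infinite.natEmbedding _ hS i).2
    have hmve : ∀ i, e i ∈ mv a := fun i => (heS i).ne'
    -- the two halves
    set M : Set ℕ := {x | ∃ i, x = e (2 * i) ∨ x = a (e (2 * i))} with hM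
    have hMinv : ∀ x, x ∈ M → a x ∈ M := by
      rintro x ⟨i, rfl | rfl⟩
      · exact ⟨i, Or.inr rfl⟩
      · exact ⟨i, Or.inl (haa _)⟩
    have hMc : ∀ x, x ∈ Mᶜ → a x ∈ Mᶜ := by
      intro x hx h'
      have := hMinv _ h'
      rw [haa] at this
      exact hx this
    have hnot : ∀ i, e (2 * i + 1) ∉ M := by
      rintro i ⟨j, hj | hj⟩
      · have := e.injective hj
        omega
      · have h1 := heS (2 * i + 1)
        have h2 := heS (2 * j)
        rw [hj, haa] at h1
        omega
    obtain ⟨b, hb1, hb2, hb3⟩ := restr a ha M hMinv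
    obtain ⟨d, hd1, hd2, hd3⟩ := restr a ha Mᶜ hMc
    have hmb : mv b ⊆ mv a := by
      intro x hx h'
      apply hx
      by_cases hxM : x ∈ M
      · rw [hb2 x hxM, h']
      · exact hb3 x hxM
    have hmd : mv d ⊆ mv a := by
      intro x hx h'
      apply hx
      by_cases hxM : x ∈ Mᶜ
      · rw [hd2 x hxM, h']
      · exact hd3 x hxM
    refine ⟨b, d, hb1, hd1, hmb.trans haC, hmd.trans haC, ?_, ?_, ?_, ?_, ?_⟩
    · ext x
      rw [Equiv.Perm.mul_apply]
      by_cases hx : x ∈ M
      · rw [hd3 x (fun h => h hx), hb2 x hx]
      · rw [hd2 x hx, hb3 _ (hMc x hx)]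
    · refine infinite_of_inj (fun i => e (2 * i)) ?_ ?_
      · intro i j hij
        have := e.injective hij
        omega
      · intro i
        show b (e (2 * i)) ≠ e (2 * i)
        rw [hb2 _ ⟨i, Or.inl rfl⟩]
        exact hmve _
    · refine infinite_of_inj (fun i => e (2 * i + 1)) ?_ ?_
      · intro i j hij
        have := e.injective hij
        omega
      · intro i
        show d (e (2 * i + 1)) ≠ e (2 * i + 1)
        rw [hd2 _ (hnot i)]
        exact hmve _
    · refine infinite_of_inj (fun i => e (2 * i + 1)) ?_ ?_
      · intro i j hij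
        have := e.injective hij
        omega
      · intro i
        refine ⟨haC (hmve _), fun h' => h' (hb3 _ (hnot i))⟩
    · refine infinite_of_inj (fun i => e (2 * i)) ?_ ?_
      · intro i j hij
        have := e.injective hij
        omega
      · intro i
        refine ⟨haC (hmve _), fun h' => h' (hd3 _ (fun h => h ⟨i, Or.inl rfl⟩))⟩

end Pool.Agent.H533R2.TG.P
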