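import Mathlib
import Pool.Agent.H533R2.TG.Defs

set_option autoImplicit false

/-!
# Every permutation is a product of two involutions with controlled support (task TWOINV)
-/

namespace Pool.Agent.H533R2.TG.P

theorem two_inv (C : Set ℕ) (u : G) (hu : mv u ⊆ C) :
    ∃ a b : G, a * a = 1 ∧ b * b = 1 ∧ mv a ⊆ C ∧ mv b ⊆ C ∧ u = a * b := by
  classical
  -- representatives
  let r : ℕ → ℕ := fun x => Quotient.out (Quotient.mk (Equiv.Perm.SameCycle.setoid u) x)
  have hr : ∀ x, Equiv.Perm.SameCycle u (r x) x := fun x =>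
    Quotient.exact (Quotient.out_eq (Quotient.mk (Equiv.Perm.SameCycle.setoid u) x))
  have hrr : ∀ x y, Equiv.Perm.SameCycle u x y → r x = r y := by
    intro x y h
    have : Quotient.mk (Equiv.Perm.SameCycle.setoid u) x =
        Quotient.mk (Equiv.Perm.SameCycle.setoid u) y := Quotient.sound h
    show Quotient.out _ = Quotient.out _
    rw [this]
  choose i hi using hr
  have key : ∀ x (j : ℤ), (u ^ j) (r x) = x → (u ^ (-j)) (r x) = (u ^ (-(i x))) (r x) := by
    intro x j hj
    have h1 : (u ^ j) (r x) = (u ^ (i x)) (r x) := by rw [hj, hi x]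
    have h2 := congrArg (u ^ (-(i x) - j)) h1
    rw [← Equiv.Perm.mul_apply, ← Equiv.Perm.mul_apply, ← zpow_add, ← zpow_add] at h2
    rw [show -(i x) - j + j = -(i x) by ring, show -(i x) - j + i x = -j by ring] at h2
    exact h2.symm
  -- the reflection
  let b0 : ℕ → ℕ := fun x => (u ^ (-(i x))) (r x)
  have hrep : ∀ x (j : ℤ), r ((u ^ j) (r x)) = r x := by
    intro x j
    have h1 : Equiv.Perm.SameCycle u x ((u ^ j) (r x)) := by
      have h2 : Equiv.Perm.SameCycle u (r x) x := ⟨i x, hi x⟩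
      exact h2.symm.trans ⟨j, rfl⟩
    exact (hrr _ _ h1).symm
  have hb : ∀ x (j : ℤ), b0 ((u ^ j) (r x)) = (u ^ (-j)) (r x) := by
    intro x j
    have h1 := hrep x j
    have h2 := key ((u ^ j) (r x)) j (by rw [h1])
    rw [h1] at h2
    show (u ^ (-(i ((u ^ j) (r x))))) (r ((u ^ j) (r x))) = _
    rw [h1, ← h2]
  have hbb : Function.Involutive b0 := by
    intro x
    have h1 : b0 x = (u ^ (-(i x))) (r x) := rfl
    rw [h1, hb, neg_neg]
    exact hi x
  let b : G := hbb.toPerm b0
  have hbx : ∀ x, b x = b0 x := fun x => rfl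
  have hbu : ∀ x, b0 (u x) = u⁻¹ (b0 x) := by
    intro x
    have h1 : u x = (u ^ (1 + i x)) (r x) := by
      rw [zpow_add, Equiv.Perm.mul_apply, zpow_one, hi x]
    rw [h1, hb]
    show _ = u⁻¹ ((u ^ (-(i x))) (r x))
    rw [← Equiv.Perm.mul_apply, ← zpow_neg_one, ← zpow_add]
    congr 2
    ring
  have hfix : ∀ x, u x = x → b0 x = x := by
    intro x hx
    have h1 : ∀ j : ℤ, (u ^ j) x = x := fun j => Equiv.Perm.zpow_apply_eq_self_of_apply_eq_self hx j
    have h2 : r x = x := by
      have := congrArg (u ^ (-(i x))) (hi x)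
      rw [← Equiv.Perm.mul_apply, ← zpow_add, neg_add_cancel, zpow_zero, Equiv.Perm.one_apply,
        h1] at this
      exact this
    show (u ^ (-(i x))) (r x) = x
    rw [h2, h1]
  refine ⟨u * b, b, ?_, ?_, ?_, ?_, ?_⟩
  · ext x
    simp only [Equiv.Perm.mul_apply, hbx, Equiv.Perm.one_apply]
    rw [hbu, hbb x]
    simp
  · ext x
    simp only [Equiv.Perm.mul_apply, hbx, Equiv.Perm.one_apply]
    exact hbb x
  · intro x hx
    apply hu
    intro hux
    apply hx
    rw [Equiv.Perm.mul_apply, hbx, hfix x hux, hux]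
  · intro x hx
    apply hu
    intro hux
    apply hx
    rw [hbx, hfix x hux]
  · have hb1 : b * b = 1 := by
      ext x
      simp only [Equiv.Perm.mul_apply, hbx, Equiv.Perm.one_apply]
      exact hbb x
    rw [mul_assoc, hb1, mul_one]

end Pool.Agent.H533R2.TG.P
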