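import Mathlib
import Pool.Agent.H533R2.TG.Defs
import Pool.Agent.H533R2.TG.P.ALMOST
import Pool.Agent.H533R2.TG.P.CONJINV
import Pool.Agent.H533R2.TG.P.INVOL
import Pool.Agent.H533R2.TG.P.INVTWO
import Pool.Agent.H533R2.TG.P.TWOINV

set_option autoImplicit false

/-! GOOD (helper913): `Sym(A) ⊆ U n` for some infinite `A`. -/

namespace Pool.Agent.H533R2.TG.P

open Set

variable {U : ℕ → Set G}

/-- conjugating an involution supported in `C` by a permutation agreeing on `C` with `σ` -/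
theorem GOOD_conj_eq (C : Set ℕ) (s k σ : G) (hs : mv s ⊆ C)
    (hk : ∀ b ∈ C, k b = σ b) : k * s * k⁻¹ = σ * s * σ⁻¹ := by
  have hfix : ∀ y, y ∉ C → s y = y := by
    intro y hy
    by_contra h
    exact hy (hs h)
  have hmap : ∀ y ∈ C, s y ∈ C := by
    intro y hy
    by_cases h : s y = y
    · rw [h]; exact hy
    · apply hs
      show s (s y) ≠ s y
      intro h2
      exact h (s.injective h2)
  ext x
  simp only [Equiv.Perm.mul_apply]
  obtain ⟨y, rfl⟩ := k.surjective x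
  have inv1 : ∀ (f : G) (z : ℕ), f⁻¹ (f z) = z := fun f z => f.symm_apply_apply z
  have inv2 : ∀ (f : G) (z : ℕ), f (f⁻¹ z) = z := fun f z => f.apply_symm_apply z
  rw [inv1]
  by_cases hy : y ∈ C
  · have h1 : σ⁻¹ (k y) = y := by
      rw [hk y hy, inv1]
    rw [h1, hk _ (hmap y hy)]
  · have h1 : σ⁻¹ (k y) ∉ C := by
      intro h
      have h2 := hk _ h
      rw [inv2] at h2
      have h3 := k.injective h2
      rw [h3] at h
      exact hy h
    rw [hfix _ h1, hfix _ hy, inv2]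

theorem good_exists (hU : Base U) (hinf : ∀ m, ∃ g ∈ U m, (mv g).Infinite) (n : ℕ) :
    ∃ A : Set ℕ, A.Infinite ∧ Good U n A := by
  obtain ⟨c, hc, hF⟩ := Pool.Agent.H533R2.TG.P.almost hU hinf
  obtain ⟨s, hsU, hsC, hs2, hsi, hsc⟩ := Pool.Agent.H533R2.TG.P.small_inv hU c hc hF (n + 4)
  have hC : (tail c (n + 4)).Infinite := hsi.mono hsC
  refine ⟨tail c (n + 4), hC, ?_⟩
  have key : ∀ b : G, b * b = 1 → mv b ⊆ tail c (n + 4) → (mv b).Infinite →
      (tail c (n + 4) \ mv b).Infinite → b ∈ U (n + 2) := by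
    intro b hb hbC hbi hbc
    obtain ⟨σ, hσ, hσb⟩ := Pool.Agent.H533R2.TG.P.conj_inv (tail c (n + 4)) s b hs2 hb hsC hbC hsi hbi hsc hbc
    obtain ⟨k, hkU, hk⟩ := hF (n + 4) σ hσ
    rw [← hσb, ← GOOD_conj_eq (tail c (n + 4)) s k σ hsC hk]
    have h1 : k * s ∈ U (n + 3) := hU.mul (n + 3) k hkU s hsU
    have h2 : k⁻¹ ∈ U (n + 3) := hU.anti _ (hU.inv _ k hkU)
    exact hU.mul (n + 2) _ h1 _ h2
  intro u hu
  obtain ⟨a, b, ha, hb, haC, hbC, hab⟩ := Pool.Agent.H533R2.TG.P.two_inv _ u hu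
  obtain ⟨b1, d1, hb1, hd1, hb1C, hd1C, h1, hb1i, hd1i, hb1c, hd1c⟩ := Pool.Agent.H533R2.TG.P.inv_two _ hC a ha haC
  obtain ⟨b2, d2, hb2, hd2, hb2C, hd2C, h2, hb2i, hd2i, hb2c, hd2c⟩ := Pool.Agent.H533R2.TG.P.inv_two _ hC b hb hbC
  have e1 := key b1 hb1 hb1C hb1i hb1c
  have e2 := key d1 hd1 hd1C hd1i hd1c
  have e3 := key b2 hb2 hb2C hb2i hb2c
  have e4 := key d2 hd2 hd2C hd2i hd2c
  rw [hab, h1, h2]
  exact hU.mul n _ (hU.mul (n + 1) _ e1 _ e2) _ (hU.mul (n + 1) _ e3 _ e4)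

end Pool.Agent.H533R2.TG.P
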