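import Mathlib
import Pool.Agent.H533R2.TG.Defs

set_option autoImplicit false

/-! UNION: permutations of `P ∪ Q` are products of permutations of `P` and of `Q`. -/

namespace Pool.Agent.H533R2.TG.P

open Set

namespace UnionAux

theorem fix_of_notMem {g : G} {P : Set ℕ} (h : mv g ⊆ P) {x : ℕ} (hx : x ∉ P) : g x = x := by
  by_contra hne
  exact hx (h hne)

theorem mv_inv {g : G} {P : Set ℕ} (h : mv g ⊆ P) : mv g⁻¹ ⊆ P := by
  intro x hx
  by_contra hxP
  apply hx
  have := fix_of_notMem h hxP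
  rw [Equiv.Perm.inv_eq_iff_eq, this]

theorem mv_mul {g h : G} {P : Set ℕ} (hg : mv g ⊆ P) (hh : mv h ⊆ P) : mv (g * h) ⊆ P := by
  intro x hx
  by_contra hxP
  apply hx
  rw [Equiv.Perm.mul_apply, fix_of_notMem hh hxP, fix_of_notMem hg hxP]

/-- extending an injective map to a permutation of `P` -/
theorem extend (P X : Set ℕ) (f : ℕ → ℕ) (hXP : X ⊆ P) (hf : Set.InjOn f X)
    (hfP : ∀ x ∈ X, f x ∈ P) (h1 : (P \ X).Infinite) (h2 : (P \ f '' X).Infinite) :
    ∃ β : G, mv β ⊆ P ∧ ∀ x ∈ X, β x = f x := by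
  classical
  have i1 : Infinite ↥(P \ X) := h1.to_subtype
  have i2 : Infinite ↥(P \ f '' X) := h2.to_subtype
  obtain ⟨e⟩ : Nonempty (↥(P \ X) ≃ ↥(P \ f '' X)) := nonempty_equiv_of_countable
  let F : ℕ → ℕ := fun x => if hx : x ∈ X then f x else if hp : x ∈ P then e ⟨x, hp, hx⟩ else x
  have F1 : ∀ x ∈ X, F x = f x := fun x hx => by simp [F, hx]
  have F2 : ∀ x (hp : x ∈ P) (hx : x ∉ X), F x = e ⟨x, hp, hx⟩ := fun x hp hx => by
    simp [F, hx, hp]
  have F3 : ∀ x, x ∉ P → F x = x := fun x hp => by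
    have hx : x ∉ X := fun h => hp (hXP h)
    simp [F, hx, hp]
  have inj : Function.Injective F := by
    intro x y hxy
    by_cases hx : x ∈ X
    · rw [F1 x hx] at hxy
      by_cases hy : y ∈ X
      · rw [F1 y hy] at hxy
        exact hf hx hy hxy
      · by_cases hpy : y ∈ P
        · rw [F2 y hpy hy] at hxy
          exact absurd ⟨x, hx, hxy⟩ (e ⟨y, hpy, hy⟩).2.2
        · rw [F3 y hpy] at hxy
          exact absurd (hxy ▸ hfP x hx) hpy
    · by_cases hpx : x ∈ P
      · rw [F2 x hpx hx] at hxy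
        by_cases hy : y ∈ X
        · rw [F1 y hy] at hxy
          exact absurd ⟨y, hy, hxy.symm⟩ (e ⟨x, hpx, hx⟩).2.2
        · by_cases hpy : y ∈ P
          · rw [F2 y hpy hy] at hxy
            have := e.injective (Subtype.ext hxy)
            exact congrArg Subtype.val this
          · rw [F3 y hpy] at hxy
            exact absurd (hxy ▸ (e ⟨x, hpx, hx⟩).2.1) hpy
      · rw [F3 x hpx] at hxy
        by_cases hy : y ∈ X
        · rw [F1 y hy] at hxy
          exact absurd (hxy ▸ hfP y hy) hpx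
        · by_cases hpy : y ∈ P
          · rw [F2 y hpy hy] at hxy
            exact absurd (hxy ▸ (e ⟨y, hpy, hy⟩).2.1) hpx
          · rw [F3 y hpy] at hxy
            exact hxy
  have surj : Function.Surjective F := by
    intro y
    by_cases hy : y ∈ f '' X
    · obtain ⟨x, hx, rfl⟩ := hy
      exact ⟨x, F1 x hx⟩
    · by_cases hpy : y ∈ P
      · obtain ⟨x, hx⟩ := e.surjective ⟨y, hpy, hy⟩
        refine ⟨x, ?_⟩
        rw [F2 x x.2.1 x.2.2, hx]
      · exact ⟨y, F3 y hpy⟩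
  refine ⟨Equiv.ofBijective F ⟨inj, surj⟩, ?_, fun x hx => F1 x hx⟩
  intro x hx
  by_contra hp
  exact hx (F3 x hp)

/-- an injective sequence in an infinite set -/
theorem exists_seq {I : Set ℕ} (hI : I.Infinite) :
    ∃ c : ℕ → ℕ, Function.Injective c ∧ ∀ n, c n ∈ I :=
  ⟨fun n => hI.natEmbedding _ n, fun _ _ h => (hI.natEmbedding _).injective (Subtype.ext h),
    fun n => (hI.natEmbedding _ n).2⟩

/-- conjugating into `Q` -/
theorem conj_into (P Q J : Set ℕ) (hJ : J.Infinite) (hJI : J ⊆ P ∩ Q) (v : G)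
    (hv : mv v ⊆ P ∪ Q) (hvJ : ∀ x ∈ J, v x = x) :
    ∃ β q : G, mv β ⊆ P ∧ mv q ⊆ Q ∧ v = β⁻¹ * q * β := by
  obtain ⟨e, he, heI⟩ := exists_seq (hJ.mono hJI)
  obtain ⟨β, hβ, hβf⟩ := extend P (P \ J) (fun x => e (2 * x)) sdiff_subset
    (fun x _ y _ h => by have := he h; omega) (fun x _ => (heI _).1)
    (by
      refine hJ.mono fun x hx => ⟨(hJI hx).1, fun h => h.2 hx⟩)
    (by
      refine (Set.infinite_range_of_injective (f := fun n => e (2 * n + 1))
        (fun x y h => by have := he h; omega)).mono ?_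
      rintro _ ⟨n, rfl⟩
      refine ⟨(heI _).1, ?_⟩
      rintro ⟨x, _, hx⟩
      have := he hx
      omega)
  refine ⟨β, β * v * β⁻¹, hβ, ?_, by group⟩
  intro y hy
  obtain ⟨x, rfl⟩ := β.surjective y
  have hvx : v x ≠ x := by
    intro h
    apply hy
    simp [h]
  have hxJ : x ∉ J := fun h => hvx (hvJ x h)
  by_cases hxP : x ∈ P
  · rw [hβf x ⟨hxP, hxJ⟩]
    exact (heI _).2
  · rw [fix_of_notMem hβ hxP]
    exact (hv hvx).resolve_left hxP

end UnionAux

open UnionAux

/-- UNION -/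
theorem union_gen (P Q : Set ℕ) (hI : (P ∩ Q).Infinite) (u : G) (hu : mv u ⊆ P ∪ Q) :
    ∃ p₁ q₁ p₂ q₂ p₃ : G, mv p₁ ⊆ P ∧ mv q₁ ⊆ Q ∧ mv p₂ ⊆ P ∧ mv q₂ ⊆ Q ∧ mv p₃ ⊆ P ∧
      u = p₁ * q₁ * p₂ * q₂ * p₃ := by
  classical
  -- the sequence `c`
  obtain ⟨c, hcI, hc⟩ := exists_seq_of_forall_finset_exists (fun x => x ∈ P ∩ Q)
    (fun x y => x ≠ y ∧ u x ≠ y ∧ u y ≠ x) (fun s _ => by
      obtain ⟨y, hy, hys⟩ := hI.exists_notMem_finset (s ∪ s.image u ∪ s.image u.symm)
      refine ⟨y, hy, fun x hx => ⟨?_, ?_, ?_⟩⟩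
      · rintro rfl; exact hys (by simp [hx])
      · rintro rfl
        exact hys (Finset.mem_union_left _ (Finset.mem_union_right _ (Finset.mem_image_of_mem _ hx)))
      · rintro rfl
        exact hys (Finset.mem_union_right _ (Finset.mem_image.2 ⟨_, hx, by simp⟩)))
  have cinj : ∀ m n, c m = c n → m = n := by
    intro m n h
    rcases lt_trichotomy m n with h' | h' | h'
    · exact absurd h (hc m n h').1
    · exact h'
    · exact absurd h.symm (hc n m h').1
  have cu : ∀ m n, m ≠ n → u (c m) ≠ c n := by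
    intro m n h
    rcases lt_or_gt_of_ne h with h' | h'
    · exact (hc m n h').2.1
    · exact (hc n m h').2.2
  have huS : ∀ x ∈ P ∪ Q, u x ∈ P ∪ Q := by
    intro x hx
    by_contra h
    have h1 := fix_of_notMem hu h
    have h2 := u.injective h1
    exact h (h2.symm ▸ hx)
  let X : Set ℕ := range fun n => c (3 * n)
  let X' : Set ℕ := range fun n => c (3 * n + 1)
  have hXX' : ∀ x ∈ X', x ∉ X := by
    rintro _ ⟨n, rfl⟩ ⟨m, hm⟩
    have := cinj _ _ hm
    omega
  have hXI : X ⊆ P ∩ Q := by rintro _ ⟨n, rfl⟩; exact hcI _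
  have hXI' : X' ⊆ P ∩ Q := by rintro _ ⟨n, rfl⟩; exact hcI _
  have hS : P ∩ Q ⊆ P ∪ Q := fun x hx => Or.inl hx.1
  have hYinf : (range fun n => c (3 * n + 2)).Infinite :=
    Set.infinite_range_of_injective fun x y h => by have := cinj _ _ h; omega
  obtain ⟨w, hw, hwf⟩ := extend (P ∪ Q) (X ∪ X') (fun x => if x ∈ X then u x else x)
    (union_subset (hXI.trans hS) (hXI'.trans hS))
    (by
      rintro x (hx | hx) y (hy | hy) h
      · simp only [hx, hy, if_true] at h
        exact u.injective h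
      · simp only [hx, hXX' y hy, if_true, if_false] at h
        obtain ⟨n, rfl⟩ := hx
        obtain ⟨m, rfl⟩ := hy
        exact absurd h (cu _ _ (by omega))
      · simp only [hy, hXX' x hx, if_true, if_false] at h
        obtain ⟨n, rfl⟩ := hx
        obtain ⟨m, rfl⟩ := hy
        exact absurd h.symm (cu _ _ (by omega))
      · simpa only [hXX' x hx, hXX' y hy, if_false] using h)
    (by
      rintro x (hx | hx)
      · simp only [hx, if_true]
        exact huS x (hS (hXI hx))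
      · simp only [hXX' x hx, if_false]
        exact hS (hXI' hx))
    (by
      refine hYinf.mono ?_
      rintro _ ⟨n, rfl⟩
      refine ⟨hS (hcI _), ?_⟩
      rintro (⟨m, hm⟩ | ⟨m, hm⟩)
      · have := cinj _ _ hm; omega
      · have := cinj _ _ hm; omega)
    (by
      refine hYinf.mono ?_
      rintro _ ⟨n, rfl⟩
      refine ⟨hS (hcI _), ?_⟩
      rintro ⟨x, hx | hx, h⟩
      · simp only [hx, if_true] at h
        obtain ⟨m, rfl⟩ := hx
        exact cu _ _ (by omega) h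
      · simp only [hXX' x hx, if_false] at h
        obtain ⟨m, rfl⟩ := hx
        have := cinj _ _ h
        omega)
  have hXinf : X.Infinite :=
    Set.infinite_range_of_injective fun x y h => by have := cinj _ _ h; omega
  have hXinf' : X'.Infinite :=
    Set.infinite_range_of_injective fun x y h => by have := cinj _ _ h; omega
  obtain ⟨β₁, q₁, hβ₁, hq₁, e₁⟩ := conj_into P Q X' hXinf' hXI' w hw (fun x hx => by
    rw [hwf x (Or.inr hx)]
    simp only [hXX' x hx, if_false])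
  obtain ⟨β₂, q₂, hβ₂, hq₂, e₂⟩ := conj_into P Q X hXinf hXI (w⁻¹ * u)
    (mv_mul (mv_inv hw) hu) (fun x hx => by
      rw [Equiv.Perm.mul_apply, Equiv.Perm.inv_eq_iff_eq, hwf x (Or.inl hx)]
      simp only [hx, if_true])
  refine ⟨β₁⁻¹, q₁, β₁ * β₂⁻¹, q₂, β₂, mv_inv hβ₁, hq₁, mv_mul hβ₁ (mv_inv hβ₂), hq₂, hβ₂, ?_⟩
  calc u = w * (w⁻¹ * u) := by group
    _ = (β₁⁻¹ * q₁ * β₁) * (β₂⁻¹ * q₂ * β₂) := by rw [← e₁, ← e₂]
    _ = _ := by group

end Pool.Agent.H533R2.TG.P
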