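import Mathlib
import Pool.Agent.H533R2.TG.Defs
import Pool.Agent.H533R2.TG.P.FAM
import Pool.Agent.H533R2.TG.P.FIBERS
import Pool.Agent.H533R2.TG.P.GOOD
import Pool.Agent.H533R2.TG.P.SPLIT
import Pool.Agent.H533R2.TG.P.TRANS
import Pool.Agent.H533R2.TG.P.UNION

set_option autoImplicit false

/-! CASE2 -/

namespace Pool.Agent.H533R2.TG.P

open Set

variable {U : ℕ → Set G}

theorem CASE2_good_mono {n : ℕ} {B B' : Set ℕ} (h : B' ⊆ B) (hB : Good U n B) : Good U n B' :=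
  fun u hu => hB u (hu.trans h)

theorem CASE2_good_conj {n m : ℕ} {g : G} (hg : ∀ h ∈ U m, g * h * g⁻¹ ∈ U n) {B : Set ℕ}
    (hB : Good U m B) : Good U n (g '' B) := by
  intro u hu
  have h1 : mv (g⁻¹ * u * g) ⊆ B := by
    intro x hx
    have hx' : (g⁻¹ * u * g) x ≠ x := hx
    have h2 : u (g x) ≠ g x := by
      intro h3
      apply hx'
      simp only [Equiv.Perm.mul_apply, h3]
      exact Equiv.symm_apply_apply g x
    have h3 : g x ∈ g '' B := hu h2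
    obtain ⟨y, hy, hyx⟩ := h3
    rwa [← g.injective hyx]
  have h2 := hg _ (hB _ h1)
  have h3 : g * (g⁻¹ * u * g) * g⁻¹ = u := by group
  rwa [h3] at h2

theorem CASE2_step (hU : Base U) (hinf : ∀ m, ∃ g ∈ U m, (mv g).Infinite) (k : ℕ) (A : Set ℕ)
    (hA : A.Infinite) : ∃ B ⊆ A, B.Infinite ∧ (A \ B).Infinite ∧ k ∉ B ∧ Good U k B := by
  obtain ⟨B', h1, h2, -⟩ := Pool.Agent.H533R2.TG.P.disj_sub (fun _ => A) (fun _ => hA)
  have hD : (B' 0 \ {k}).Infinite := (h1 0).2.sdiff (Set.finite_singleton k)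
  obtain ⟨B, hB1, hB2, hB3⟩ := Pool.Agent.H533R2.TG.P.transfer hU (fun n B => Good U n B)
    (fun n B B' h h' => CASE2_good_mono h h')
    (fun n m g hg B hB => CASE2_good_conj hg hB) (Pool.Agent.H533R2.TG.P.good_exists hU hinf) k _ hD
  refine ⟨B, fun x hx => (h1 0).1 (hB1 hx).1, hB2, ?_, fun hk => (hB1 hk).2 rfl, hB3⟩
  refine (h1 1).2.mono fun x hx => ⟨(h1 1).1 hx, fun hxB => ?_⟩
  exact (Set.disjoint_left.1 (h2 0 1 (by norm_num)) (hB1 hxB).1) hx

theorem case_two (hU : Base U) (hinf : ∀ m, ∃ g ∈ U m, (mv g).Infinite) (n : ℕ) :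
    ∃ F : Finset ℕ, ∀ g : G, (∀ x ∈ F, g x = x) → g ∈ U n := by
  classical
  have hstep : ∀ (k : ℕ) (A : {A : Set ℕ // A.Infinite}), ∃ B : {A : Set ℕ // A.Infinite},
      B.1 ⊆ A.1 ∧ (A.1 \ B.1).Infinite ∧ k ∉ B.1 ∧ Good U k B.1 := by
    intro k A
    obtain ⟨B, h1, h2, h3, h4, h5⟩ := CASE2_step hU hinf k A.1 A.2
    exact ⟨⟨B, h2⟩, h1, h3, h4, h5⟩
  choose st hst using hstep
  let A : ℕ → {A : Set ℕ // A.Infinite} := fun m =>
    Nat.rec (st 0 ⟨Set.univ, Set.infinite_univ⟩) (fun k A => st (k + 1) A) m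
  have hA0 : A 0 = st 0 ⟨Set.univ, Set.infinite_univ⟩ := rfl
  have hAs : ∀ k, A (k + 1) = st (k + 1) (A k) := fun k => rfl
  have hgood : ∀ m, m ∉ (A m).1 ∧ Good U m (A m).1 := by
    intro m
    cases m with
    | zero => rw [hA0]; exact (hst 0 _).2.2
    | succ k => rw [hAs]; exact (hst (k + 1) _).2.2
  have hanti : ∀ k, (A (k + 1)).1 ⊆ (A k).1 := by
    intro k; rw [hAs]; exact (hst (k + 1) _).1
  have hanti' : Antitone fun k => (A k).1 := antitone_nat_of_succ_le hanti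
  have hex : ∀ x : ℕ, ∃ m, x ∉ (A m).1 := fun x => ⟨x, (hgood x).1⟩
  let rho : ℕ → ℕ := fun x => Nat.find (hex x)
  have hrho : ∀ m x, x ∈ (A m).1 ↔ m < rho x := by
    intro m x
    constructor
    · intro hx
      by_contra hlt
      push Not at hlt
      exact Nat.find_spec (hex x) (hanti' hlt hx)
    · intro hlt
      by_contra hx
      exact Nat.find_min (hex x) hlt hx
  have hfib : ∀ k, {x | rho x = k}.Infinite := by
    intro k
    cases k with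
    | zero =>
      have h1 := (hst 0 ⟨Set.univ, Set.infinite_univ⟩).2.1
      rw [← hA0] at h1
      refine h1.mono fun x hx => ?_
      have h2 : ¬ (0 < rho x) := fun h => hx.2 ((hrho 0 x).2 h)
      show rho x = 0
      omega
    | succ k =>
      have h1 := (hst (k + 1) (A k)).2.1
      rw [← hAs] at h1
      refine h1.mono fun x hx => ?_
      have h2 : ¬ (k + 1 < rho x) := fun h => hx.2 ((hrho (k + 1) x).2 h)
      have h3 : k < rho x := (hrho k x).1 hx.1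
      show rho x = k + 1
      omega
  obtain ⟨f, hf1, hf2⟩ := Pool.Agent.H533R2.TG.P.family
  have hc : ∀ ξ : ℕ → Bool, ∃ c : G, ∀ x, rho (c x) = f ξ x := fun ξ =>
    Pool.Agent.H533R2.TG.P.fiber_perm (f ξ) rho (hf1 ξ) hfib
  choose c hc using hc
  have hm : ∀ ξ : ℕ → Bool, ∃ m, ∀ h ∈ U m, (c ξ)⁻¹ * h * (c ξ)⁻¹⁻¹ ∈ U (n + 3) := fun ξ =>
    hU.conj (n + 3) (c ξ)⁻¹
  choose m hm using hm
  have hni : ¬ Function.Injective m := by
    intro hinj
    have h1 : Countable (ℕ → Bool) := hinj.countable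
    obtain ⟨e, he⟩ := exists_surjective_nat (ℕ → Bool)
    obtain ⟨k, hk⟩ := he (fun k => !(e k k))
    have h3 := congrFun hk k
    simp at h3
  rw [Function.not_injective_iff] at hni
  obtain ⟨ξ, η, hmm, hne⟩ := hni
  have hG : ∀ ζ : ℕ → Bool, Good U (n + 3) {x | m ζ < f ζ x} := by
    intro ζ u hu
    have h1 : mv (c ζ * u * (c ζ)⁻¹) ⊆ (A (m ζ)).1 := by
      intro x hx
      have hx' : (c ζ * u * (c ζ)⁻¹) x ≠ x := hx
      have h2 : u ((c ζ)⁻¹ x) ≠ (c ζ)⁻¹ x := by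
        intro h3
        apply hx'
        simp only [Equiv.Perm.mul_apply, h3]
        exact Equiv.apply_symm_apply (c ζ) x
      have h3 : m ζ < f ζ ((c ζ)⁻¹ x) := hu h2
      have h4 : c ζ ((c ζ)⁻¹ x) = x := Equiv.apply_symm_apply (c ζ) x
      rw [← hc, h4] at h3
      exact (hrho _ _).2 h3
    have h2 := hm ζ _ ((hgood (m ζ)).2 _ h1)
    have h3 : (c ζ)⁻¹ * (c ζ * u * (c ζ)⁻¹) * (c ζ)⁻¹⁻¹ = u := by group
    rwa [h3] at h2
  have hGξ := hG ξ
  have hGη := hG η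
  rw [← hmm] at hGη
  obtain ⟨hfin, hinf2⟩ := hf2 ξ η hne (m ξ)
  refine ⟨hfin.toFinset, fun g hg => ?_⟩
  obtain ⟨p₁, q₁, p₂, q₂, p₃, h1, h2, h3, h4, h5, e⟩ :=
    Pool.Agent.H533R2.TG.P.union_gen {x | m ξ < f ξ x} {x | m ξ < f η x} hinf2 g (by
      intro x hx
      by_contra hx2
      apply hx
      apply hg
      rw [Set.Finite.mem_toFinset]
      rw [Set.mem_union, not_or] at hx2
      exact ⟨not_lt.1 hx2.1, not_lt.1 hx2.2⟩)
  rw [e]
  have e1 := hU.mul (n + 2) _ (hGξ _ h1) _ (hGη _ h2)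
  have e2 := hU.mul (n + 2) _ (hGξ _ h3) _ (hGη _ h4)
  have e3 := hU.mul (n + 1) _ e1 _ e2
  have e4 : p₃ ∈ U (n + 1) := hU.anti _ (hU.anti _ (hGξ _ h5))
  have e5 := hU.mul n _ e3 _ e4
  have e6 : p₁ * q₁ * p₂ * q₂ * p₃ = p₁ * q₁ * (p₂ * q₂) * p₃ := by group
  rw [e6]; exact e5

end Pool.Agent.H533R2.TG.P
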