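import Mathlib
import Pool.Agent.H533R2.TG.Defs

set_option autoImplicit false

namespace Pool.Agent.H533R2.TG.P

open Set

variable {U : ℕ → Set G}

/-- EQTOP -/
theorem eq_std (τ : TopologicalSpace G) (hg : @IsTopologicalGroup G τ _)
    (hU : ∀ V : Set G, V ∈ @nhds G τ 1 ↔ ∃ n, U n ⊆ V) (N : Set G)
    (h1 : ∀ n, ∃ F : Finset ℕ, ∀ h ∈ N, (∀ x ∈ F, h x = x) → h ∈ U n)
    (h2 : ∀ F : Finset ℕ, ∃ n, ∀ h ∈ U n, h ∈ N ∧ ∀ x ∈ F, h x = x) : τ = stdTop N := by
  have key : ∀ V : Set G, @IsOpen G τ V ↔ ∀ g ∈ V, ∃ F : Finset ℕ, ∀ h ∈ N,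
      (∀ x ∈ F, h x = x) → g * h ∈ V := by
    letI := τ
    haveI := hg
    intro V
    constructor
    · intro hV g hgV
      have hc : Filter.Tendsto (fun h : G => g * h) (nhds 1) (nhds (g * 1)) :=
        (continuous_const.mul continuous_id).tendsto 1
      have h3 : {h : G | g * h ∈ V} ∈ nhds (1 : G) := by
        refine hc ?_
        rw [mul_one]
        exact hV.mem_nhds hgV
      obtain ⟨n, hn⟩ := (hU _).1 h3
      obtain ⟨F, hF⟩ := h1 n
      exact ⟨F, fun h hN hx => hn (hF h hN hx)⟩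
    · intro hV
      rw [isOpen_iff_mem_nhds]
      intro g hgV
      obtain ⟨F, hF⟩ := hV g hgV
      obtain ⟨n, hn⟩ := h2 F
      have h3 : {h : G | g * h ∈ V} ∈ nhds (1 : G) :=
        (hU _).2 ⟨n, fun h hh => hF h (hn h hh).1 (hn h hh).2⟩
      have hc : Filter.Tendsto (fun h : G => g⁻¹ * h) (nhds g) (nhds (g⁻¹ * g)) :=
        (continuous_const.mul continuous_id).tendsto g
      rw [inv_mul_cancel] at hc
      have h4 := hc h3
      have h5 : (fun h : G => g⁻¹ * h) ⁻¹' {h : G | g * h ∈ V} = V := by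
        ext h
        simp
      rw [Filter.mem_map, h5] at h4
      exact h4
  refine TopologicalSpace.ext ?_
  funext V
  exact propext (key V)

end Pool.Agent.H533R2.TG.P
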