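import Mathlib
import Pool.Agent.H533R2.TG.Defs

set_option autoImplicit false

namespace Pool.Agent.H533R2.TG.P

open Set

namespace EVENPROD

/-- Product of two swaps is a product of 3-cycles. -/
theorem two (s t : G) (hs : Equiv.Perm.IsSwap s) (ht : Equiv.Perm.IsSwap t) :
    ∃ l : List G, (∀ s ∈ l, T3 s) ∧ s * t = l.prod := by
  obtain ⟨a, b, hab, rfl⟩ := hs
  obtain ⟨c, d, hcd, rfl⟩ := ht
  by_cases h1 : a = c
  · subst h1
    by_cases h2 : b = d
    · subst h2
      exact ⟨[], by simp, by simp⟩
    · exact ⟨[Equiv.swap a b * Equiv.swap a d], by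
        intro s hs
        rw [List.mem_singleton] at hs
        exact ⟨a, b, d, hab, hcd, h2, hs⟩, by simp⟩
  by_cases h2 : a = d
  · subst h2
    by_cases h3 : b = c
    · subst h3
      refine ⟨[], by simp, ?_⟩
      rw [Equiv.swap_comm b a]
      simp
    · refine ⟨[Equiv.swap a b * Equiv.swap a c], ?_, ?_⟩
      · intro s hs
        rw [List.mem_singleton] at hs
        exact ⟨a, b, c, hab, h1, h3, hs⟩
      · rw [Equiv.swap_comm c a]; simp
  by_cases h3 : b = c
  · subst h3
    refine ⟨[Equiv.swap b a * Equiv.swap b d], ?_, ?_⟩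
    · intro s hs
      rw [List.mem_singleton] at hs
      exact ⟨b, a, d, Ne.symm hab, hcd, h2, hs⟩
    · rw [Equiv.swap_comm a b]; simp
  by_cases h4 : b = d
  · subst h4
    refine ⟨[Equiv.swap b a * Equiv.swap b c], ?_, ?_⟩
    · intro s hs
      rw [List.mem_singleton] at hs
      exact ⟨b, a, c, Ne.symm hab, h3, h1, hs⟩
    · rw [Equiv.swap_comm a b, Equiv.swap_comm c b]; simp
  · refine ⟨[Equiv.swap a b * Equiv.swap a c, Equiv.swap c a * Equiv.swap c d], ?_, ?_⟩
    · intro s hs
      simp only [List.mem_cons, List.not_mem_nil, or_false] at hs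
      rcases hs with hs | hs
      · exact ⟨a, b, c, hab, h1, h3, hs⟩
      · exact ⟨c, a, d, Ne.symm h1, hcd, h2, hs⟩
    · rw [Equiv.swap_comm c a]
      simp only [List.prod_cons, List.prod_nil, mul_one]
      rw [mul_assoc, ← mul_assoc (Equiv.swap a c) (Equiv.swap a c), Equiv.swap_mul_self, one_mul]

end EVENPROD

open EVENPROD in
/-- EVENPROD -/
theorem even_prod (g : G) (hg : EvenF g) : ∃ l : List G, (∀ s ∈ l, T3 s) ∧ g = l.prod := by
  obtain ⟨l, hl, hev, rfl⟩ := hg
  have key : ∀ n : ℕ, ∀ l : List G, l.length ≤ n → (∀ s ∈ l, Equiv.Perm.IsSwap s) →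
      Even l.length → ∃ l' : List G, (∀ s ∈ l', T3 s) ∧ l.prod = l'.prod := by
    intro n
    induction n with
    | zero =>
      intro l h1 _ _
      have : l = [] := by
        rw [← List.length_eq_zero_iff]; omega
      subst this
      exact ⟨[], by simp, rfl⟩
    | succ n ih =>
      intro l h1 h2 h3
      match l, h1, h2, h3 with
      | [], _, _, _ => exact ⟨[], by simp, rfl⟩
      | [s], _, _, h3 => simp at h3
      | s :: t :: l, h1, h2, h3 =>
        obtain ⟨l1, hl1, e1⟩ := two s t (h2 s (by simp)) (h2 t (by simp))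
        obtain ⟨l2, hl2, e2⟩ := ih l (by simp at h1; omega)
          (fun u hu => h2 u (by simp [hu])) (by
            simp only [List.length_cons] at h3
            rw [Nat.even_add_one, Nat.even_add_one, not_not] at h3
            exact h3)
        refine ⟨l1 ++ l2, ?_, ?_⟩
        · intro u hu
          rw [List.mem_append] at hu
          rcases hu with hu | hu
          · exact hl1 u hu
          · exact hl2 u hu
        · rw [List.prod_append, ← e1, ← e2]
          simp [mul_assoc]
  exact key l.length l le_rfl hl hev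

end Pool.Agent.H533R2.TG.P
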