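import Mathlib
import Pool.Agent.H533R2.TG.Defs
import Pool.Agent.H533R2.TG.P.ALL3
import Pool.Agent.H533R2.TG.P.CSEQ
import Pool.Agent.H533R2.TG.P.EVENPROD

set_option autoImplicit false

/-! EVENALL -/

namespace Pool.Agent.H533R2.TG.P

open Set
open Pool.Agent.H533R2.TG

variable {U : ℕ → Set G}

namespace EVENALL

theorem fin_mul {a b : G} (ha : (mv a).Finite) (hb : (mv b).Finite) : (mv (a * b)).Finite := by
  refine (ha.union hb).subset ?_
  intro x hx
  by_contra h
  simp only [mv, mem_union, mem_setOf_eq, not_or, not_not] at h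
  exact hx (by rw [Equiv.Perm.mul_apply, h.2, h.1])

theorem fin_swap {s : G} (hs : Equiv.Perm.IsSwap s) : (mv s).Finite := by
  obtain ⟨a, b, -, rfl⟩ := hs
  refine (Set.toFinite {a, b}).subset ?_
  intro x hx
  by_contra h
  simp only [mem_insert_iff, mem_singleton_iff, not_or] at h
  exact hx (Equiv.swap_apply_of_ne_of_ne h.1 h.2)

theorem fin_prod (l : List G) (h : ∀ s ∈ l, (mv s).Finite) : (mv l.prod).Finite := by
  induction l with
  | nil => simp [mv]
  | cons a l ih =>
    rw [List.prod_cons]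
    exact fin_mul (h a (by simp)) (ih fun s hs => h s (by simp [hs]))

theorem fin_even {g : G} (hg : EvenF g) : (mv g).Finite := by
  obtain ⟨l, h1, -, rfl⟩ := hg
  exact fin_prod l fun s hs => fin_swap (h1 s hs)

theorem fin_t3 {g : G} (hg : T3 g) : (mv g).Finite := by
  obtain ⟨a, b, c, h1, h2, -, rfl⟩ := hg
  exact fin_mul (fin_swap ⟨a, b, h1, rfl⟩) (fin_swap ⟨a, c, h2, rfl⟩)

theorem t3_conj {g : G} (hg : T3 g) (c : G) : T3 (c * g * c⁻¹) := by
  obtain ⟨x, y, z, h1, h2, h3, rfl⟩ := hg
  refine ⟨c x, c y, c z, fun h => h1 (c.injective h), fun h => h2 (c.injective h),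
    fun h => h3 (c.injective h), ?_⟩
  rw [← mul_assoc, Equiv.mul_swap_eq_swap_mul c x y, mul_assoc (Equiv.swap (c x) (c y)) c,
    Equiv.mul_swap_eq_swap_mul c x z, ← mul_assoc, mul_inv_cancel_right]

theorem prod_mem (hU : Base U) (j : ℕ) : ∀ (i : ℕ) (l : List G), l.length ≤ 2 ^ j →
    (∀ s ∈ l, s ∈ U (i + j)) → l.prod ∈ U i := by
  induction j with
  | zero =>
    intro i l h1 h2
    match l, h1, h2 with
    | [], _, _ => simpa using hU.one i
    | [a], _, h2 => simpa using h2 a (by simp)
    | a :: b :: l, h1, _ => simp at h1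
  | succ j ih =>
    intro i l h1 h2
    rw [← List.take_append_drop (2 ^ j) l, List.prod_append]
    apply hU.mul
    · apply ih
      · simp
      · intro s hs
        have := h2 s (List.mem_of_mem_take hs)
        rwa [show i + (j + 1) = i + 1 + j by ring] at this
    · apply ih
      · simp only [List.length_drop]
        rw [pow_succ] at h1
        omega
      · intro s hs
        have := h2 s (List.mem_of_mem_drop hs)
        rwa [show i + (j + 1) = i + 1 + j by ring] at this

/-- an involution moving `[0,N)` off itself -/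
def shf (N : ℕ) : G where
  toFun x := if x < N then x + N else if x < 2 * N then x - N else x
  invFun x := if x < N then x + N else if x < 2 * N then x - N else x
  left_inv x := by
    dsimp only
    split_ifs <;> omega
  right_inv x := by
    dsimp only
    split_ifs <;> omega

theorem shf_inv (N x : ℕ) (hx : x < N) : (shf N)⁻¹ x = x + N := by
  change (shf N).symm x = x + N
  simp [shf, hx]

theorem conj_prod (c : G) (l : List G) : c * l.prod * c⁻¹ = (l.map fun s => c * s * c⁻¹).prod := by
  induction l with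
  | nil => simp
  | cons a l ih =>
    rw [List.prod_cons, List.map_cons, List.prod_cons, ← ih]
    group

theorem key (hU : Base U)
    (h3 : ∀ n, ∃ F : Finset ℕ, ∀ g, T3 g → (∀ x ∈ F, g x = x) → g ∈ U n)
    (hp : ∀ g, EvenF g → ∃ l : List G, (∀ s ∈ l, T3 s) ∧ g = l.prod)
    (x : G) (hx : EvenF x) (i : ℕ) (E : Finset ℕ) :
    ∃ c : G, c * x * c⁻¹ ∈ U i ∧ ∀ e ∈ E, (c * x * c⁻¹) e = e := by
  classical
  obtain ⟨l, hl, rfl⟩ := hp x hx
  obtain ⟨F, hF⟩ := h3 (i + l.length)
  have hfin : (⋃ s ∈ l.toFinset, mv s).Finite :=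
    Set.Finite.biUnion (Finset.finite_toSet _) fun s hs => fin_t3 (hl s (by simpa using hs))
  obtain ⟨N, hN⟩ : ∃ N, ∀ y ∈ (⋃ s ∈ l.toFinset, mv s) ∪ (E : Set ℕ) ∪ (F : Set ℕ), y < N := by
    have h1 := (hfin.union (Finset.finite_toSet E)).union (Finset.finite_toSet F)
    obtain ⟨N, hN⟩ := h1.bddAbove
    exact ⟨N + 1, fun y hy => Nat.lt_succ_of_le (hN hy)⟩
  have hfix : ∀ s ∈ l, ∀ y, y < N → (shf N * s * (shf N)⁻¹) y = y := by
    intro s hs y hy
    rw [Equiv.Perm.mul_apply, Equiv.Perm.mul_apply, shf_inv N y hy]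
    have h1 : s (y + N) = y + N := by
      by_contra h
      have := hN (y + N) (Or.inl (Or.inl (by
        simp only [mem_iUnion]
        exact ⟨s, by simpa using hs, h⟩)))
      omega
    rw [h1]
    have h2 : shf N (y + N) = y := by
      rw [← shf_inv N y hy]
      simp
    exact h2
  refine ⟨shf N, ?_, ?_⟩
  · rw [conj_prod]
    apply prod_mem hU l.length
    · simpa using (Nat.lt_two_pow_self (n := l.length)).le
    · intro t ht
      rw [List.mem_map] at ht
      obtain ⟨s, hs, rfl⟩ := ht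
      apply hF _ (t3_conj (hl s hs) _)
      intro y hy
      exact hfix s hs y (hN y (Or.inr hy))
  · intro e he
    have he' : e < N := hN e (Or.inl (Or.inr he))
    rw [conj_prod]
    have : ∀ l' : List G, (∀ s ∈ l', s e = e) → l'.prod e = e := by
      intro l' h
      induction l' with
      | nil => simp
      | cons a l' ih =>
        rw [List.prod_cons, Equiv.Perm.mul_apply, ih fun s hs => h s (by simp [hs])]
        exact h a (by simp)
    apply this
    intro t ht
    rw [List.mem_map] at ht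
    obtain ⟨s, hs, rfl⟩ := ht
    exact hfix s hs e he'

end EVENALL

open EVENALL

/-- EVENALL -/
theorem even_all (hU : Base U) (hfin : ∃ m, ∀ g ∈ U m, (mv g).Finite)
    (hnd : ∀ n, ∃ g ∈ U n, g ≠ 1) (n : ℕ) :
    ∃ F : Finset ℕ, ∀ g, EvenF g → (∀ x ∈ F, g x = x) → g ∈ U n := by
  classical
  by_contra hcon
  push Not at hcon
  choose X hX1 hX2 hX3 using hcon
  have hk : ∀ (i : ℕ) (E : Finset ℕ), ∃ c : G, c * X E * c⁻¹ ∈ U i ∧
      ∀ e ∈ E, (c * X E * c⁻¹) e = e := fun i E =>
    key hU (Pool.Agent.H533R2.TG.P.three_all hU hfin hnd) Pool.Agent.H533R2.TG.P.even_prod (X E) (hX1 E) i E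
  choose c hc1 hc2 using hk
  have hsX : ∀ E, (mv (X E)).Finite := fun E => fin_even (hX1 E)
  have hsZ : ∀ i E, (mv (c i E * X E * (c i E)⁻¹)).Finite := by
    intro i E
    refine ((hsX E).image (c i E)).subset ?_
    intro y hy
    refine ⟨(c i E)⁻¹ y, ?_, by simp⟩
    intro h
    apply hy
    rw [Equiv.Perm.mul_apply, Equiv.Perm.mul_apply, h]
    simp
  let E : ℕ → Finset ℕ := fun i => Nat.rec ∅ (fun i F => F ∪ (hsX F).toFinset ∪ (hsZ i F).toFinset) i
  have hE : ∀ i, E (i + 1) = E i ∪ (hsX (E i)).toFinset ∪ (hsZ i (E i)).toFinset := fun i => rfl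
  have hmono : ∀ i j, i ≤ j → E i ⊆ E j := by
    intro i j hij
    induction hij with
    | refl => exact subset_rfl
    | step _ ih =>
      refine ih.trans ?_
      rw [Nat.succ_eq_add_one, hE]
      intro x hx
      simp [hx]
  have hxE : ∀ i j, i < j → ∀ y ∈ mv (X (E i)), y ∈ E j := by
    intro i j hij y hy
    apply hmono (i + 1) j hij
    rw [hE]
    simp only [Finset.mem_union, Set.Finite.mem_toFinset]
    exact Or.inl (Or.inr hy)
  have hzE : ∀ i j, i < j → ∀ y ∈ mv (c i (E i) * X (E i) * (c i (E i))⁻¹), y ∈ E j := by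
    intro i j hij y hy
    apply hmono (i + 1) j hij
    rw [hE]
    simp only [Finset.mem_union, Set.Finite.mem_toFinset]
    exact Or.inr hy
  refine Pool.Agent.H533R2.TG.P.conj_seq hU n (fun i => X (E i)) (fun i => c i (E i) * X (E i) * (c i (E i))⁻¹)
    (fun i => hc1 i (E i)) (fun i => hX3 (E i)) (fun i => ⟨c i (E i), rfl⟩) ?_ ?_
  · have h1 : ∀ i j, i < j → Disjoint (mv (X (E i))) (mv (X (E j))) := by
      intro i j hij
      rw [Set.disjoint_left]
      intro y hy hy'
      exact hy' (hX2 (E j) y (hxE i j hij y hy))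
    intro i j hij
    rcases lt_or_gt_of_ne hij with h | h
    · exact h1 i j h
    · exact (h1 j i h).symm
  · have h1 : ∀ i j, i < j → Disjoint (mv (c i (E i) * X (E i) * (c i (E i))⁻¹))
        (mv (c j (E j) * X (E j) * (c j (E j))⁻¹)) := by
      intro i j hij
      rw [Set.disjoint_left]
      intro y hy hy'
      exact hy' (hc2 j (E j) y (hzE i j hij y hy))
    intro i j hij
    rcases lt_or_gt_of_ne hij with h | h
    · exact h1 i j h
    · exact (h1 j i h).symm

end Pool.Agent.H533R2.TG.P
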