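import Mathlib
import Pool.Agent.H533R2.TG.Defs
import Pool.Agent.H533R2.TG.P.GAU

set_option autoImplicit false

/-! PARITY (helper332) -/

namespace Pool.Agent.H533R2.TG.P

open Set

variable {U : ℕ → Set G}

namespace PARITY

theorem inv_swap {s : G} (hs : Equiv.Perm.IsSwap s) : Equiv.Perm.IsSwap s⁻¹ := by
  obtain ⟨x, y, hxy, rfl⟩ := hs
  exact ⟨x, y, hxy, by simp⟩

theorem list_inv {l : List G} (hl : ∀ s ∈ l, Equiv.Perm.IsSwap s) :
    ∃ l' : List G, (∀ s ∈ l', Equiv.Perm.IsSwap s) ∧ l'.length = l.length ∧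
      l.prod⁻¹ = l'.prod := by
  refine ⟨(l.map (·⁻¹)).reverse, ?_, by simp, ?_⟩
  · intro s hs
    rw [List.mem_reverse, List.mem_map] at hs
    obtain ⟨t, ht, rfl⟩ := hs
    exact inv_swap (hl t ht)
  · rw [List.prod_inv_reverse]

/-- a finitary permutation is a product of transpositions -/
theorem swaps (g : G) (hg : (mv g).Finite) :
    ∃ l : List G, (∀ s ∈ l, Equiv.Perm.IsSwap s) ∧ g = l.prod := by
  have h1 : g ∈ Subgroup.closure {σ : G | σ.IsSwap} := by
    rw [_root_.mem_closure_isSwap']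
    exact hg
  clear hg
  induction h1 using Subgroup.closure_induction with
  | mem x hx => exact ⟨[x], by simpa using hx, by simp⟩
  | one => exact ⟨[], by simp, by simp⟩
  | mul x y hx hy ihx ihy =>
    obtain ⟨l, hl, rfl⟩ := ihx
    obtain ⟨k, hk, rfl⟩ := ihy
    refine ⟨l ++ k, ?_, by rw [List.prod_append]⟩
    intro s hs
    rcases List.mem_append.1 hs with h | h
    · exact hl s h
    · exact hk s h
  | inv x hx ih =>
    obtain ⟨l, hl, rfl⟩ := ih
    obtain ⟨l', h1, _, h3⟩ := list_inv hl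
    exact ⟨l', h1, h3⟩

theorem evenF_inv {g : G} (hg : EvenF g) : EvenF g⁻¹ := by
  obtain ⟨l, hl, he, rfl⟩ := hg
  obtain ⟨l', h1, h2, h3⟩ := list_inv hl
  exact ⟨l', h1, by rw [h2]; exact he, h3⟩

/-- the quotient of two finitary permutations that are not even is even -/
theorem quot {x y : G} (hx : (mv x).Finite) (hy : (mv y).Finite) (hx' : ¬ EvenF x)
    (hy' : ¬ EvenF y) : EvenF (y⁻¹ * x) := by
  obtain ⟨l, hl, rfl⟩ := swaps x hx
  obtain ⟨k, hk, rfl⟩ := swaps y hy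
  obtain ⟨k', h1, h2, h3⟩ := list_inv hk
  have hl' : ¬ Even l.length := fun h => hx' ⟨l, hl, h, rfl⟩
  have hk' : ¬ Even k.length := fun h => hy' ⟨k, hk, h, rfl⟩
  refine ⟨k' ++ l, ?_, ?_, ?_⟩
  · intro s hs
    rcases List.mem_append.1 hs with h | h
    · exact h1 s h
    · exact hl s h
  · rw [List.length_append, h2, Nat.even_add]
    tauto
  · rw [List.prod_append, h3]

end PARITY

open PARITY

theorem parity (hU : Base U) (hfin : ∃ m, ∀ g ∈ U m, (mv g).Finite)
    (he : ∀ n, ∃ F : Finset ℕ, ∀ g, EvenF g → (∀ x ∈ F, g x = x) → g ∈ U n) :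
    (∃ n, ∀ g ∈ U n, EvenF g) ∨
      ∀ n, ∃ F : Finset ℕ, ∀ g, (mv g).Finite → (∀ x ∈ F, g x = x) → g ∈ U n := by
  by_cases hE : ∃ n, ∀ g ∈ U n, EvenF g
  · exact Or.inl hE
  right
  push Not at hE
  intro n
  have hanti : ∀ i j, i ≤ j → U j ⊆ U i := by
    intro i j hij
    induction j, hij using Nat.le_induction with
    | base => exact subset_rfl
    | succ j _ ih => exact (hU.anti j).trans ih
  obtain ⟨F, hF⟩ := he (n + 1)
  obtain ⟨m, hm⟩ := hfin
  obtain ⟨k, hk⟩ := Pool.Agent.H533R2.TG.P.gaughan hU F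
  obtain ⟨y, hyU, hy⟩ := hE (max (max k m) (n + 1))
  have hyk : y ∈ U k := hanti _ _ ((le_max_left k m).trans (le_max_left _ _)) hyU
  have hym : y ∈ U m := hanti _ _ ((le_max_right k m).trans (le_max_left _ _)) hyU
  have hyn : y ∈ U (n + 1) := hanti _ _ (le_max_right _ _) hyU
  refine ⟨F, fun x hx hxF => ?_⟩
  by_cases hxe : EvenF x
  · exact hU.anti n (hF x hxe hxF)
  · have h1 : y⁻¹ * x ∈ U (n + 1) := by
      apply hF _ (quot hx (hm y hym) hxe hy)
      intro a ha
      rw [Equiv.Perm.mul_apply, hxF a ha]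
      rw [Equiv.Perm.inv_eq_iff_eq]
      exact (hk y hyk a ha).symm
    have h2 := hU.mul n y hyn _ h1
    rwa [mul_inv_cancel_left] at h2

end Pool.Agent.H533R2.TG.P
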