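import Mathlib
import Pool.Agent.H533R2.TG.Defs
import Pool.Agent.H533R2.TG.P.BASE
import Pool.Agent.H533R2.TG.P.CASE2
import Pool.Agent.H533R2.TG.P.EQTOP
import Pool.Agent.H533R2.TG.P.EVENALL
import Pool.Agent.H533R2.TG.P.GAU
import Pool.Agent.H533R2.TG.P.PARITY

set_option autoImplicit false

/-! Final assembly (helper533). -/

namespace Pool.Agent.H533R2.TG.P

open Set

theorem main (τ : TopologicalSpace G) (hg : @IsTopologicalGroup G τ _)
    (hm : @TopologicalSpace.MetrizableSpace G τ) :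
    τ = stdTop {1} ∨ τ = stdTop {g | EvenF g} ∨ τ = stdTop {g | (mv g).Finite} ∨
      τ = stdTop univ := by
  have h2 : @T2Space G τ := by
    letI := τ; exact inferInstance
  have hf : @FirstCountableTopology G τ := by
    letI := τ; exact inferInstance
  obtain ⟨U, hU, hV⟩ := Pool.Agent.H533R2.TG.P.exists_base τ hg h2 hf
  have anti : ∀ m n, m ≤ n → U n ⊆ U m := fun m n h =>
    antitone_nat_of_succ_le (f := U) (fun n => hU.anti n) h
  by_cases hfin : ∃ m, ∀ g ∈ U m, (mv g).Finite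
  · by_cases hnd : ∀ n, ∃ g ∈ U n, g ≠ 1
    · have he := Pool.Agent.H533R2.TG.P.even_all hU hfin hnd
      rcases Pool.Agent.H533R2.TG.P.parity hU hfin he with ⟨n, hn⟩ | hn
      · right; left
        refine Pool.Agent.H533R2.TG.P.eq_std τ hg hV _ he ?_
        intro F
        obtain ⟨k, hk⟩ := Pool.Agent.H533R2.TG.P.gaughan hU F
        exact ⟨max n k, fun h hh => ⟨hn h (anti _ _ (le_max_left _ _) hh),
          hk h (anti _ _ (le_max_right _ _) hh)⟩⟩
      · right; right; left
        refine Pool.Agent.H533R2.TG.P.eq_std τ hg hV _ hn ?_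
        intro F
        obtain ⟨m, hm⟩ := hfin
        obtain ⟨k, hk⟩ := Pool.Agent.H533R2.TG.P.gaughan hU F
        exact ⟨max m k, fun h hh => ⟨hm h (anti _ _ (le_max_left _ _) hh),
          hk h (anti _ _ (le_max_right _ _) hh)⟩⟩
    · push Not at hnd
      obtain ⟨n, hn⟩ := hnd
      left
      refine Pool.Agent.H533R2.TG.P.eq_std τ hg hV _ (fun k => ⟨∅, fun h hh _ => ?_⟩) (fun F => ⟨n, fun h hh => ⟨hn h hh, ?_⟩⟩)
      · rw [mem_singleton_iff.1 hh]; exact hU.one k
      · intro x _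
        rw [hn h hh]; rfl
  · push Not at hfin
    right; right; right
    refine Pool.Agent.H533R2.TG.P.eq_std τ hg hV _ (fun n => ?_) (fun F => ?_)
    · obtain ⟨F, hF⟩ := Pool.Agent.H533R2.TG.P.case_two hU (fun m => by
        obtain ⟨g, hg1, hg2⟩ := hfin m
        exact ⟨g, hg1, hg2⟩) n
      exact ⟨F, fun h _ hh => hF h hh⟩
    · obtain ⟨k, hk⟩ := Pool.Agent.H533R2.TG.P.gaughan hU F
      exact ⟨k, fun h hh => ⟨mem_univ _, hk h hh⟩⟩

end Pool.Agent.H533R2.TG.P
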